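import Pool.Agent.TH354.Pr.Thirty

/-!
# Turán's `(3,4)`-conjecture: pairs of six-vertex 3-graphs, one of which a counterexample contains

`G` is a 3-graph on `n` vertices in which every four vertices contain an edge; the triples which are
not edges of `G` form a `K_4^3`-free 3-graph. `fig 0`, ..., `fig 16` are seventeen 3-graphs on six
vertices, none of which is contained in the complement of Turán's construction, and `pairs` is a list
of thirty pairs of them. For each of these pairs `{A, B}`, if no six vertices of `G` have non-edges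
forming a copy of `A` or `B`, then `54 |G| ≥ 4 n³ - 156 n² + 18 n`, which is Turán's bound `4/9` for
the density; in general `4 n⁶ + 18 n⁴ ≤ 54 n³ |G| + 156 n⁵ + 6192 N`, where `N` is the number of these
sets of six vertices. So if the density of `G` is at most `4/9 - ε`, then `G` contains, for each of
the thirty pairs, at least `(ε/1548) n⁶` copies of one of its members, and at least seven of the
seventeen 3-graphs occur in this way.

Outline: for each pair a sum of squares certificate for the densities of six-vertex structures with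
a non-negative penalty at the two members of the pair only, which is checked by the kernel. The
theorem is proved in `Pool.Agent.TH354.Pr.Thirty`, with the 3-graphs written as sets of triples.
-/

set_option autoImplicit false
set_option maxRecDepth 100000
set_option maxHeartbeats 4000000
open Finset

namespace Pool.Agent.Results.MP_466853_co.ExcludedPairs

/-- The edges of the seventeen 3-graphs on `0, ..., 5`: the number with the decimal digits `a`, `b`,
`c` stands for the edge `{a, b, c}`, so that `12` stands for `{0, 1, 2}`. -/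
def figs : List (List ℕ) := [
  [12, 13, 14],
  [12, 13, 23, 14, 24, 34],
  [12, 13, 23, 14, 24, 15, 25],
  [12, 13, 23, 14, 24, 34, 15, 25, 35],
  [13, 23, 124, 34, 125, 35],
  [13, 23, 123, 14, 24, 124, 34, 15, 25, 125, 35],
  [23, 123, 14, 24, 124, 34, 134, 15, 25, 125, 35, 135],
  [13, 23, 123, 14, 24, 124, 34, 15, 25, 35, 45],
  [12, 13, 123, 14, 124, 134, 15, 25, 35, 45],
  [23, 123, 24, 124, 34, 134, 15, 25, 35, 45],
  [13, 23, 123, 14, 24, 124, 34, 125, 35, 45],
  [12, 13, 123, 24, 124, 34, 134, 25, 125, 35, 135, 45],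
  [23, 123, 14, 24, 124, 34, 134, 15, 25, 125, 35, 135, 45],
  [12, 13, 23, 124, 134, 234, 125, 135, 235, 45],
  [12, 13, 23, 14, 124, 134, 234, 15, 125, 135, 235, 45],
  [13, 23, 14, 24, 124, 134, 234, 15, 25, 125, 135, 235, 45],
  [12, 13, 123, 14, 24, 34, 234, 25, 125, 35, 135, 45, 145]]

/-- The triple `{a, b, c}` whose number has the decimal digits `a`, `b`, `c`. -/
def triple (m : ℕ) : Finset (Fin 6) :=
  {Fin.ofNat 6 (m / 100), Fin.ofNat 6 (m / 10 % 10), Fin.ofNat 6 (m % 10)}

/-- The 3-graph with number `i` (numbers `0, ..., 16`), on the vertices `0, ..., 5`. -/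
def fig (i : ℕ) : Finset (Finset (Fin 6)) := ((figs.getD i []).map triple).toFinset

/-- Thirty pairs of these 3-graphs. -/
def pairs : List (ℕ × ℕ) :=
  [(1, 11), (0, 10), (0, 12), (0, 16), (2, 3), (2, 10), (2, 12), (2, 16), (3, 12), (3, 16),
   (4, 10), (4, 12), (4, 16), (5, 11), (6, 9), (6, 10), (6, 12), (6, 15), (6, 16), (7, 10),
   (7, 12), (7, 16), (8, 11), (9, 11), (10, 14), (11, 15), (12, 13), (12, 14), (13, 16),
   (14, 15)]

open scoped Classical

/-- Every four vertices contain an edge of the 3-graph `G`. -/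
def CoversQuadruples {n : ℕ} (G : Finset (Finset (Fin n))) : Prop :=
  ∀ S : Finset (Fin n), S.card = 4 → ∃ s ⊆ S, s ∈ G

/-- The triples in the set `S` of vertices which are not edges of `G` form a copy of the 3-graph `F`:
there is a bijection from the vertices of `F` to `S` that maps edges of `F` to non-edges of `G` and
non-edges of `F` to edges of `G`. -/
def CoInduces {k n : ℕ} (F : Finset (Finset (Fin k))) (G : Finset (Finset (Fin n)))
    (S : Finset (Fin n)) : Prop :=
  ∃ f : Fin k → Fin n, Function.Injective f ∧ univ.image f = S ∧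
    ∀ t : Finset (Fin k), t.card = 3 → (t.image f ∉ G ↔ t ∈ F)

/-- The number of sets of vertices in which the non-edges of `G` form a copy of `F`. -/
noncomputable def copies {k n : ℕ} (F : Finset (Finset (Fin k))) (G : Finset (Finset (Fin n))) : ℕ :=
  ((univ : Finset (Finset (Fin n))).filter fun S => CoInduces F G S).card

theorem fig_val : ∀ i : Fin 17, fig (i : ℕ) = Pool.Agent.TH354.Pr.Thirty.fig i := by
  decide +kernel

theorem pairs_val : pairs = Pool.Agent.TH354.Pr.Thirty.pairs.map
    (fun q => ((q.1 : ℕ), (q.2 : ℕ))) := by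
  decide +kernel

/-- **Pairs of six-vertex 3-graphs in Turán's `(3,4)`-problem.** Let `G` be a 3-graph on `n` vertices
in which every four vertices contain an edge, and let `q` be one of the thirty pairs. Then
`4 n⁶ + 18 n⁴ ≤ 54 n³ |G| + 156 n⁵ + 6192 N`, where `N` is the sum of the numbers of sets of vertices
in which the non-edges of `G` form a copy of `fig q.1` and of `fig q.2`. If there are none, then
`4 n³ + 18 n ≤ 54 |G| + 156 n²`. If `n` is large and `|G| ≤ (4/9 - ε) (n choose 3)`, then there is a set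
`X` of at least seven of the seventeen 3-graphs, with a member in each of the thirty pairs, such that
each member of `X` occurs at least `(ε/1548) n⁶` times. For every `n` there is such a 3-graph `G`
(Turán's construction) without any of the seventeen 3-graphs and with `54 |G| ≤ 4 n³ + 108 n²`. -/
theorem result :
    (∀ q ∈ pairs, ∀ (n : ℕ) (G : Finset (Finset (Fin n))), (∀ e ∈ G, e.card = 3) →
      CoversQuadruples G → 4 * n ^ 6 + 18 * n ^ 4 ≤ 54 * n ^ 3 * G.card + 156 * n ^ 5 +
        6192 * (copies (fig q.1) G + copies (fig q.2) G)) ∧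
    (∀ q ∈ pairs, ∀ (n : ℕ) (G : Finset (Finset (Fin n))), (∀ e ∈ G, e.card = 3) →
      CoversQuadruples G → copies (fig q.1) G = 0 → copies (fig q.2) G = 0 →
      4 * n ^ 3 + 18 * n ≤ 54 * G.card + 156 * n ^ 2) ∧
    (∀ ε : ℝ, 0 < ε → ∃ N : ℕ, ∀ n : ℕ, N ≤ n → ∀ G : Finset (Finset (Fin n)),
      (∀ e ∈ G, e.card = 3) → CoversQuadruples G →
      (G.card : ℝ) ≤ (4 / 9 - ε) * ((n.choose 3 : ℕ) : ℝ) →
      ∃ X : Finset ℕ, X ⊆ range 17 ∧
        (∀ i ∈ X, ε / 1548 * (n : ℝ) ^ 6 ≤ (copies (fig i) G : ℝ)) ∧
        (∀ q ∈ pairs, q.1 ∈ X ∨ q.2 ∈ X) ∧ 7 ≤ X.card) ∧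
    (∀ n : ℕ, ∃ G : Finset (Finset (Fin n)), (∀ e ∈ G, e.card = 3) ∧ CoversQuadruples G ∧
      (∀ i ∈ range 17, copies (fig i) G = 0) ∧ 54 * G.card ≤ 4 * n ^ 3 + 108 * n ^ 2) := by
  obtain ⟨h1, h2, h3, h4⟩ := Pool.Agent.TH354.Pr.Thirty.thirty
  refine ⟨?_, ?_, ?_, ?_⟩
  · intro q hq n G hG hK
    rw [pairs_val, List.mem_map] at hq
    obtain ⟨r, hr, rfl⟩ := hq
    have h := h1 r hr n G hG hK
    rw [← fig_val, ← fig_val] at h
    exact h
  · intro q hq n G hG hK ha hb
    rw [pairs_val, List.mem_map] at hq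
    obtain ⟨r, hr, rfl⟩ := hq
    rw [fig_val] at ha hb
    exact h2 r hr n G hG hK ha hb
  · intro ε hε
    obtain ⟨N, hN⟩ := h3 ε hε
    refine ⟨N, fun n hn G hG hK hc => ?_⟩
    obtain ⟨X, hX1, hX2, hX3⟩ := hN n hn G hG hK hc
    refine ⟨X.map Fin.valEmbedding, ?_, ?_, ?_, ?_⟩
    · intro i hi
      obtain ⟨j, -, rfl⟩ := mem_map.1 hi
      exact mem_range.2 j.isLt
    · intro i hi
      obtain ⟨j, hj, rfl⟩ := mem_map.1 hi
      have h := hX1 j hj
      rw [← fig_val] at h
      exact h
    · intro q hq
      rw [pairs_val, List.mem_map] at hq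
      obtain ⟨r, hr, rfl⟩ := hq
      rcases hX2 r hr with h | h
      · exact Or.inl (mem_map.2 ⟨r.1, h, rfl⟩)
      · exact Or.inr (mem_map.2 ⟨r.2, h, rfl⟩)
    · rw [card_map]
      exact hX3
  · intro n
    obtain ⟨G, hG, hK, hc, hn⟩ := h4 n
    refine ⟨G, hG, hK, fun i hi => ?_, hn⟩
    have h := hc ⟨i, mem_range.1 hi⟩
    rw [← fig_val] at h
    exact h

end Pool.Agent.Results.MP_466853_co.ExcludedPairs
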