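import Pool.Agent.TH983.FC.C0Fin
import Pool.Agent.TH983.FC.C1Fin
import Pool.Agent.TH983.FC.C2Fin
import Pool.Agent.TH983.FC.C3Fin
import Pool.Agent.TH983.FC.C4Fin
import Pool.Agent.TH983.FC.C5Fin
import Pool.Agent.TH983.FC.C6Fin
import Pool.Agent.TH983.FC.C7Fin
import Pool.Agent.TH773.FA.Cpy

/-!
# A counterexample to Turán's `(3,4)`-conjecture has fewer copies of each six-vertex subgraph of
Turán's construction

`turan g` is Turán's construction for a division `g` of the vertices into three parts: the edges are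
the triples that meet all three parts, and the triples with two vertices in a part and one in the
following part. Turán's conjecture says that a `K_4^3`-free 3-graph has edge density at most
`5/9 + o(1)`. `T a b` is the subgraph of the construction induced by six vertices, of which `a`, `b`,
`6 - a - b` lie in the three parts (there are eight of them up to isomorphism), and `occ F / 729` is
the probability that six vertices in random parts induce a copy of `F`, that is the density of `F` in
the construction with three large equal parts. For each `F = T a b`, every `K_4^3`-free 3-graph `H`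
on `n` vertices satisfies

`6 |H| / n³ - 5/9 ≤ lam (occ F / 729 - 720 N / n⁶)`,

where `N` is the number of induced copies of `F` in `H` and the constant `lam`, which depends only on
`F`, is between `1/10` and `1/2`. So a 3-graph with more than `(5/54) n³` edges has fewer copies of
each `F` than Turán's construction, and Turán's bound holds if for one of the eight `F` there are at
least as many copies. The inequalities are all sharp for Turán's construction.

Outline: for each of the eight isomorphism types a sum of squares certificate for six-vertex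
structures, exact on the subgraphs of Turán's construction, with an additional term for the
structures isomorphic to the given one.
-/

set_option autoImplicit false
set_option maxRecDepth 100000
set_option maxHeartbeats 4000000
open Finset
open scoped Classical

namespace Pool.Agent.Results.MP_466853_co.FewerCopies

/-- The 3-graph `H` has no four vertices spanning all four triples. -/
def K43Free {n : ℕ} (H : Finset (Finset (Fin n))) : Prop :=
  ∀ S : Finset (Fin n), S.card = 4 → ∃ s ⊆ S, s.card = 3 ∧ s ∉ H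

/-- The set `S` of vertices induces a copy of the 3-graph `F` in `H`: there is a bijection from the
vertices of `F` to `S` that maps edges to edges and non-edges to non-edges. -/
def Induces {k n : ℕ} (F : Finset (Finset (Fin k))) (H : Finset (Finset (Fin n)))
    (S : Finset (Fin n)) : Prop :=
  ∃ f : Fin k → Fin n, Function.Injective f ∧ univ.image f = S ∧
    ∀ t : Finset (Fin k), t.card = 3 → (t.image f ∈ H ↔ t ∈ F)

/-- The number of sets of vertices which induce a copy of `F` in `H`. -/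
noncomputable def copies {k n : ℕ} (F : Finset (Finset (Fin k))) (H : Finset (Finset (Fin n))) : ℕ :=
  ((univ : Finset (Finset (Fin n))).filter fun S => Induces F H S).card

/-- Turán's construction for the division of the vertices into the parts `g = 0`, `g = 1`, `g = 2`:
the triples that meet all three parts, and the triples with two vertices in one part and one vertex
in the following part, where part 0 follows part 2. -/
def turan {n : ℕ} (g : Fin n → Fin 3) : Finset (Finset (Fin n)) :=
  ((univ : Finset (Fin n)).powersetCard 3).filter fun t =>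
    (∀ p, ∃ i ∈ t, g i = p) ∨
      ∃ p, (t.filter fun i => g i = p).card = 2 ∧ (t.filter fun i => g i = p + 1).card = 1

/-- The division of six vertices into parts with `a`, `b` and `6 - a - b` vertices. -/
def part (a b : ℕ) (i : Fin 6) : Fin 3 := if i.val < a then 0 else if i.val < a + b then 1 else 2

/-- Turán's construction on six vertices with parts of sizes `a`, `b`, `6 - a - b`. -/
def T (a b : ℕ) : Finset (Finset (Fin 6)) := turan (part a b)

/-- The number of divisions of six labelled vertices into three labelled parts (there are `3⁶ = 729`)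
for which Turán's construction is a copy of `F`. -/
noncomputable def occ (F : Finset (Finset (Fin 6))) : ℕ :=
  ((univ : Finset (Fin 6 → Fin 3)).filter fun g => Induces F (turan g) univ).card

/-- the factor in the inequality, for the sizes of the parts -/
noncomputable def lam : ℕ → ℕ → ℕ → ℝ
  | 2, 2, 2 => 1 / 5
  | 1, 3, 2 | 2, 1, 3 | 3, 2, 1 => 1 / 10
  | 1, 2, 3 | 2, 3, 1 | 3, 1, 2 => 1 / 10
  | 0, 5, 1 | 1, 0, 5 | 1, 1, 4 | 1, 4, 1 | 4, 1, 1 | 5, 1, 0 => 1 / 10
  | 0, 4, 2 | 2, 0, 4 | 4, 2, 0 => 1 / 4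
  | 0, 3, 3 | 3, 0, 3 | 3, 3, 0 => 1 / 5
  | 0, 2, 4 | 2, 4, 0 | 4, 0, 2 => 2 / 5
  | _, _, _ => 1 / 2

theorem img {k n : ℕ} (f : Fin k → Fin n) (t : Finset (Fin k)) :
    @Finset.image _ _ (fun a b => Classical.propDecidable (a = b)) f t =
      @Finset.image _ _ (instDecidableEqFin n) f t := by
  ext v
  simp only [mem_image]

theorem ind_iff {n : ℕ} (F : Finset (Finset (Fin 6))) (H : Finset (Finset (Fin n)))
    (S : Finset (Fin n)) : Pool.Agent.H37R3.Cop.Induces F H S ↔ Induces F H S := by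
  unfold Pool.Agent.H37R3.Cop.Induces Induces
  simp only [img]

theorem ind_card {k n : ℕ} {F : Finset (Finset (Fin k))} {H : Finset (Finset (Fin n))}
    {S : Finset (Fin n)} (h : Induces F H S) : S.card = k := by
  obtain ⟨f, hf, hS, -⟩ := h
  rw [← hS, card_image_of_injective _ hf, card_univ, Fintype.card_fin]

theorem copies_six {n : ℕ} (F : Finset (Finset (Fin 6))) (H : Finset (Finset (Fin n))) :
    (((univ : Finset (Fin n)).powersetCard 6).filter fun S =>
      Pool.Agent.H37R3.Cop.Induces F H S).card = copies F H := by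
  unfold copies
  congr 1
  ext S
  rw [mem_filter, mem_filter, mem_powersetCard, ind_iff]
  constructor
  · rintro ⟨-, h⟩
    exact ⟨mem_univ _, h⟩
  · rintro ⟨-, h⟩
    exact ⟨⟨subset_univ _, ind_card h⟩, h⟩

/-- isomorphism of six-vertex 3-graphs -/
def Iso (F F' : Finset (Finset (Fin 6))) : Prop :=
  ∃ p : Equiv.Perm (Fin 6), ∀ t : Finset (Fin 6), t.card = 3 → (t.image p ∈ F ↔ t ∈ F')

theorem Iso.symm {F F' : Finset (Finset (Fin 6))} (h : Iso F F') : Iso F' F := by
  obtain ⟨p, hp⟩ := h
  refine ⟨p.symm, fun t ht => ?_⟩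
  rw [← hp _ (by rw [card_image_of_injective _ p.symm.injective, ht]), image_image]
  simp

theorem iso_of (F F' : Finset (Finset (Fin 6))) (g : Fin 6 → Fin 6) (hg : Function.Injective g)
    (h : ∀ t : Finset (Fin 6), t.card = 3 → (t.image g ∈ F ↔ t ∈ F')) : Iso F F' :=
  ⟨Equiv.ofBijective g (Finite.injective_iff_bijective.mp hg), h⟩

theorem ind_iso {n : ℕ} {F F' : Finset (Finset (Fin 6))} {H : Finset (Finset (Fin n))}
    {S : Finset (Fin n)} (h : Iso F F') (hi : Induces F H S) : Induces F' H S := by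
  obtain ⟨p, hp⟩ := h
  obtain ⟨f, hf, hfS, hfe⟩ := hi
  refine ⟨f ∘ p, hf.comp p.injective, ?_, ?_⟩
  · rw [← hfS]
    ext v
    simp only [mem_image, mem_univ, true_and, Function.comp]
    constructor
    · rintro ⟨i, hi⟩; exact ⟨p i, hi⟩
    · rintro ⟨i, hi⟩
      exact ⟨p.symm i, by rw [p.apply_symm_apply]; exact hi⟩
  · intro t ht
    rw [← hp t ht, ← hfe _ (by rw [card_image_of_injective _ p.injective, ht]), image_image]

theorem copies_iso {n : ℕ} {F F' : Finset (Finset (Fin 6))} (H : Finset (Finset (Fin n)))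
    (h : Iso F F') : copies F H ≤ copies F' H := by
  unfold copies
  refine card_le_card ?_
  intro S hS
  rw [mem_filter] at hS ⊢
  exact ⟨mem_univ _, ind_iso h hS.2⟩

theorem base0 {n : ℕ} {H : Finset (Finset (Fin n))} (h3 : ∀ e ∈ H, e.card = 3) (hK : K43Free H)
    {F : Finset (Finset (Fin 6))} (h : Iso F Pool.Agent.TH983.FC.C0.FS) :
    8748 * n ^ 3 * H.card + 524880 * copies F H ≤ 831 * n ^ 6 := by
  have h1 := Pool.Agent.TH983.FC.C0.main h3 hK
  rw [Fintype.card_fin, copies_six] at h1
  have h2 := copies_iso H h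
  omega

theorem base1 {n : ℕ} {H : Finset (Finset (Fin n))} (h3 : ∀ e ∈ H, e.card = 3) (hK : K43Free H)
    {F : Finset (Finset (Fin 6))} (h : Iso F Pool.Agent.TH983.FC.C1.FS) :
    21870 * n ^ 3 * H.card + 1049760 * copies F H ≤ 2115 * n ^ 6 := by
  have h1 := Pool.Agent.TH983.FC.C1.main h3 hK
  rw [Fintype.card_fin, copies_six] at h1
  have h2 := copies_iso H h
  omega

theorem base2 {n : ℕ} {H : Finset (Finset (Fin n))} (h3 : ∀ e ∈ H, e.card = 3) (hK : K43Free H)
    {F : Finset (Finset (Fin 6))} (h : Iso F Pool.Agent.TH983.FC.C2.FS) :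
    21870 * n ^ 3 * H.card + 524880 * copies F H ≤ 2085 * n ^ 6 := by
  have h1 := Pool.Agent.TH983.FC.C2.main h3 hK
  rw [Fintype.card_fin, copies_six] at h1
  have h2 := copies_iso H h
  omega

theorem base3 {n : ℕ} {H : Finset (Finset (Fin n))} (h3 : ∀ e ∈ H, e.card = 3) (hK : K43Free H)
    {F : Finset (Finset (Fin 6))} (h : Iso F Pool.Agent.TH983.FC.C3.FS) :
    17496 * n ^ 3 * H.card + 524880 * copies F H ≤ 1665 * n ^ 6 := by
  have h1 := Pool.Agent.TH983.FC.C3.main h3 hK
  rw [Fintype.card_fin, copies_six] at h1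
  have h2 := copies_iso H h
  omega

theorem base4 {n : ℕ} {H : Finset (Finset (Fin n))} (h3 : ∀ e ∈ H, e.card = 3) (hK : K43Free H)
    {F : Finset (Finset (Fin 6))} (h : Iso F Pool.Agent.TH983.FC.C4.FS) :
    43740 * n ^ 3 * H.card + 524880 * copies F H ≤ 4158 * n ^ 6 := by
  have h1 := Pool.Agent.TH983.FC.C4.main h3 hK
  rw [Fintype.card_fin, copies_six] at h1
  have h2 := copies_iso H h
  omega

theorem base5 {n : ℕ} {H : Finset (Finset (Fin n))} (h3 : ∀ e ∈ H, e.card = 3) (hK : K43Free H)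
    {F : Finset (Finset (Fin 6))} (h : Iso F Pool.Agent.TH983.FC.C5.FS) :
    43740 * n ^ 3 * H.card + 524880 * copies F H ≤ 4230 * n ^ 6 := by
  have h1 := Pool.Agent.TH983.FC.C5.main h3 hK
  rw [Fintype.card_fin, copies_six] at h1
  have h2 := copies_iso H h
  omega

theorem base6 {n : ℕ} {H : Finset (Finset (Fin n))} (h3 : ∀ e ∈ H, e.card = 3) (hK : K43Free H)
    {F : Finset (Finset (Fin 6))} (h : Iso F Pool.Agent.TH983.FC.C6.FS) :
    43740 * n ^ 3 * H.card + 524880 * copies F H ≤ 4230 * n ^ 6 := by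
  have h1 := Pool.Agent.TH983.FC.C6.main h3 hK
  rw [Fintype.card_fin, copies_six] at h1
  have h2 := copies_iso H h
  omega

theorem base7 {n : ℕ} {H : Finset (Finset (Fin n))} (h3 : ∀ e ∈ H, e.card = 3) (hK : K43Free H)
    {F : Finset (Finset (Fin 6))} (h : Iso F Pool.Agent.TH983.FC.C7.FS) :
    21870 * n ^ 3 * H.card + 524880 * copies F H ≤ 2115 * n ^ 6 := by
  have h1 := Pool.Agent.TH983.FC.C7.main h3 hK
  rw [Fintype.card_fin, copies_six] at h1
  have h2 := copies_iso H h
  omega

theorem iso_0_0 : Iso (T 0 0) Pool.Agent.TH983.FC.C0.FS :=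
  iso_of _ _ ![0, 1, 2, 3, 4, 5] (by decide) (by decide +kernel)

theorem iso_0_1 : Iso (T 0 1) Pool.Agent.TH983.FC.C0.FS :=
  iso_of _ _ ![0, 1, 2, 3, 4, 5] (by decide) (by decide +kernel)

theorem iso_0_2 : Iso (T 0 2) Pool.Agent.TH983.FC.C1.FS :=
  iso_of _ _ ![0, 1, 2, 3, 4, 5] (by decide) (by decide +kernel)

theorem iso_0_3 : Iso (T 0 3) Pool.Agent.TH983.FC.C2.FS :=
  iso_of _ _ ![0, 1, 2, 3, 4, 5] (by decide) (by decide +kernel)

theorem iso_0_4 : Iso (T 0 4) Pool.Agent.TH983.FC.C3.FS :=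
  iso_of _ _ ![0, 1, 2, 3, 4, 5] (by decide) (by decide +kernel)

theorem iso_0_5 : Iso (T 0 5) Pool.Agent.TH983.FC.C4.FS :=
  iso_of _ _ ![5, 0, 1, 2, 3, 4] (by decide) (by decide +kernel)

theorem iso_0_6 : Iso (T 0 6) Pool.Agent.TH983.FC.C0.FS :=
  iso_of _ _ ![0, 1, 2, 3, 4, 5] (by decide) (by decide +kernel)

theorem iso_1_0 : Iso (T 1 0) Pool.Agent.TH983.FC.C4.FS :=
  iso_of _ _ ![0, 1, 2, 3, 4, 5] (by decide) (by decide +kernel)

theorem iso_1_1 : Iso (T 1 1) Pool.Agent.TH983.FC.C4.FS :=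
  iso_of _ _ ![0, 1, 2, 3, 4, 5] (by decide) (by decide +kernel)

theorem iso_1_2 : Iso (T 1 2) Pool.Agent.TH983.FC.C5.FS :=
  iso_of _ _ ![0, 1, 2, 3, 4, 5] (by decide) (by decide +kernel)

theorem iso_1_3 : Iso (T 1 3) Pool.Agent.TH983.FC.C6.FS :=
  iso_of _ _ ![0, 1, 2, 3, 4, 5] (by decide) (by decide +kernel)

theorem iso_1_4 : Iso (T 1 4) Pool.Agent.TH983.FC.C4.FS :=
  iso_of _ _ ![5, 0, 1, 2, 3, 4] (by decide) (by decide +kernel)

theorem iso_1_5 : Iso (T 1 5) Pool.Agent.TH983.FC.C0.FS :=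
  iso_of _ _ ![0, 1, 2, 3, 4, 5] (by decide) (by decide +kernel)

theorem iso_2_0 : Iso (T 2 0) Pool.Agent.TH983.FC.C3.FS :=
  iso_of _ _ ![2, 3, 4, 5, 0, 1] (by decide) (by decide +kernel)

theorem iso_2_1 : Iso (T 2 1) Pool.Agent.TH983.FC.C6.FS :=
  iso_of _ _ ![2, 3, 4, 5, 0, 1] (by decide) (by decide +kernel)

theorem iso_2_2 : Iso (T 2 2) Pool.Agent.TH983.FC.C7.FS :=
  iso_of _ _ ![0, 1, 2, 3, 4, 5] (by decide) (by decide +kernel)

theorem iso_2_3 : Iso (T 2 3) Pool.Agent.TH983.FC.C5.FS :=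
  iso_of _ _ ![5, 0, 1, 2, 3, 4] (by decide) (by decide +kernel)

theorem iso_2_4 : Iso (T 2 4) Pool.Agent.TH983.FC.C1.FS :=
  iso_of _ _ ![0, 1, 2, 3, 4, 5] (by decide) (by decide +kernel)

theorem iso_3_0 : Iso (T 3 0) Pool.Agent.TH983.FC.C2.FS :=
  iso_of _ _ ![3, 4, 5, 0, 1, 2] (by decide) (by decide +kernel)

theorem iso_3_1 : Iso (T 3 1) Pool.Agent.TH983.FC.C5.FS :=
  iso_of _ _ ![3, 4, 5, 0, 1, 2] (by decide) (by decide +kernel)

theorem iso_3_2 : Iso (T 3 2) Pool.Agent.TH983.FC.C6.FS :=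
  iso_of _ _ ![5, 0, 1, 2, 3, 4] (by decide) (by decide +kernel)

theorem iso_3_3 : Iso (T 3 3) Pool.Agent.TH983.FC.C2.FS :=
  iso_of _ _ ![0, 1, 2, 3, 4, 5] (by decide) (by decide +kernel)

theorem iso_4_0 : Iso (T 4 0) Pool.Agent.TH983.FC.C1.FS :=
  iso_of _ _ ![4, 5, 0, 1, 2, 3] (by decide) (by decide +kernel)

theorem iso_4_1 : Iso (T 4 1) Pool.Agent.TH983.FC.C4.FS :=
  iso_of _ _ ![4, 0, 1, 2, 3, 5] (by decide) (by decide +kernel)

theorem iso_4_2 : Iso (T 4 2) Pool.Agent.TH983.FC.C3.FS :=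
  iso_of _ _ ![0, 1, 2, 3, 4, 5] (by decide) (by decide +kernel)

theorem iso_5_0 : Iso (T 5 0) Pool.Agent.TH983.FC.C0.FS :=
  iso_of _ _ ![0, 1, 2, 3, 4, 5] (by decide) (by decide +kernel)

theorem iso_5_1 : Iso (T 5 1) Pool.Agent.TH983.FC.C4.FS :=
  iso_of _ _ ![5, 0, 1, 2, 3, 4] (by decide) (by decide +kernel)

theorem iso_6_0 : Iso (T 6 0) Pool.Agent.TH983.FC.C0.FS :=
  iso_of _ _ ![0, 1, 2, 3, 4, 5] (by decide) (by decide +kernel)

/-- the isomorphism type of the subgraph with given sizes of the parts -/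
def cl : ℕ → ℕ → ℕ → ℕ
  | 2, 2, 2 => 7
  | 1, 3, 2 | 2, 1, 3 | 3, 2, 1 => 6
  | 1, 2, 3 | 2, 3, 1 | 3, 1, 2 => 5
  | 0, 5, 1 | 1, 0, 5 | 1, 1, 4 | 1, 4, 1 | 4, 1, 1 | 5, 1, 0 => 4
  | 0, 4, 2 | 2, 0, 4 | 4, 2, 0 => 3
  | 0, 3, 3 | 3, 0, 3 | 3, 3, 0 => 2
  | 0, 2, 4 | 2, 4, 0 | 4, 0, 2 => 1
  | _, _, _ => 0

def FSk : ℕ → Finset (Finset (Fin 6))
  | 0 => Pool.Agent.TH983.FC.C0.FS
  | 1 => Pool.Agent.TH983.FC.C1.FS
  | 2 => Pool.Agent.TH983.FC.C2.FS
  | 3 => Pool.Agent.TH983.FC.C3.FS
  | 4 => Pool.Agent.TH983.FC.C4.FS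
  | 5 => Pool.Agent.TH983.FC.C5.FS
  | 6 => Pool.Agent.TH983.FC.C6.FS
  | _ => Pool.Agent.TH983.FC.C7.FS

theorem iso_all (a b c : ℕ) (habc : a + b + c = 6) : Iso (T a b) (FSk (cl a b c)) := by
  obtain rfl : c = 6 - a - b := by omega
  have ha : a ≤ 6 := by omega
  have hb : b ≤ 6 - a := by omega
  clear habc
  interval_cases a
  · interval_cases b
    · exact iso_0_0
    · exact iso_0_1
    · exact iso_0_2
    · exact iso_0_3
    · exact iso_0_4
    · exact iso_0_5
    · exact iso_0_6
  · interval_cases b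
    · exact iso_1_0
    · exact iso_1_1
    · exact iso_1_2
    · exact iso_1_3
    · exact iso_1_4
    · exact iso_1_5
  · interval_cases b
    · exact iso_2_0
    · exact iso_2_1
    · exact iso_2_2
    · exact iso_2_3
    · exact iso_2_4
  · interval_cases b
    · exact iso_3_0
    · exact iso_3_1
    · exact iso_3_2
    · exact iso_3_3
  · interval_cases b
    · exact iso_4_0
    · exact iso_4_1
    · exact iso_4_2
  · interval_cases b
    · exact iso_5_0
    · exact iso_5_1
  · interval_cases b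
    · exact iso_6_0

/-- a monotone division of six vertices is given by the sizes of the parts -/
theorem monotone_part : ∀ h : Fin 6 → Fin 3, (∀ i j, i ≤ j → h i ≤ h j) →
    ∃ a : Fin 7, ∃ b : Fin 7, a.val + b.val ≤ 6 ∧ ∀ i, h i = part a.val b.val i := by
  decide +kernel

theorem mem_turan {n m : ℕ} (g : Fin n → Fin 3) (f : Fin m → Fin n) (hf : Function.Injective f)
    (t : Finset (Fin m)) : t.image f ∈ turan g ↔ t ∈ turan (g ∘ f) := by
  unfold turan
  have e : ∀ p, ((t.image f).filter fun i => g i = p).card =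
      (t.filter fun i => (g ∘ f) i = p).card := by
    intro p
    rw [filter_image, card_image_of_injective _ hf]
    rfl
  rw [mem_filter, mem_filter, mem_powersetCard, mem_powersetCard, card_image_of_injective _ hf]
  simp only [e, subset_univ, true_and, mem_image, exists_exists_and_eq_and, Function.comp]

/-- the size of a part -/
def z (g : Fin 6 → Fin 3) (p : Fin 3) : ℕ := (univ.filter fun i => g i = p).card

theorem z_part : ∀ a b : Fin 7, a.val + b.val ≤ 6 → z (part a.val b.val) 0 = a.val ∧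
    z (part a.val b.val) 1 = b.val ∧ z (part a.val b.val) 2 = 6 - a.val - b.val := by
  decide +kernel

theorem z_comp (g : Fin 6 → Fin 3) (σ : Equiv.Perm (Fin 6)) (p : Fin 3) : z (g ∘ σ) p = z g p := by
  unfold z
  refine card_bij (fun i _ => σ i) ?_ ?_ ?_
  · intro i hi
    rw [mem_filter] at hi ⊢
    exact ⟨mem_univ _, hi.2⟩
  · intro i _ j _ h
    exact σ.injective h
  · intro j hj
    rw [mem_filter] at hj
    refine ⟨σ.symm j, ?_, σ.apply_symm_apply j⟩
    rw [mem_filter]
    refine ⟨mem_univ _, ?_⟩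
    rw [Function.comp, σ.apply_symm_apply]
    exact hj.2

theorem sorted (g : Fin 6 → Fin 3) :
    z g 0 + z g 1 + z g 2 = 6 ∧ Induces (T (z g 0) (z g 1)) (turan g) univ := by
  set σ := Tuple.sort g
  have hm : Monotone (g ∘ σ) := Tuple.monotone_sort _
  obtain ⟨a, b, hab, h⟩ := monotone_part (g ∘ σ) fun i j hij => hm hij
  have hg : g ∘ σ = part a.val b.val := funext h
  obtain ⟨h0, h1, h2⟩ := z_part a b hab
  rw [← hg, z_comp] at h0 h1 h2
  refine ⟨by omega, ?_⟩
  rw [h0, h1]
  refine ⟨σ, σ.injective, ?_, ?_⟩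
  · exact image_univ_of_surjective σ.surjective
  · intro t _
    rw [mem_turan g _ σ.injective, hg]
    rfl

def cnt (k : ℕ) : ℕ :=
  ((univ : Finset (Fin 6 → Fin 3)).filter fun g => cl (z g 0) (z g 1) (z g 2) = k).card

theorem cnt_val : cnt 0 = 21 ∧ cnt 1 = 45 ∧ cnt 2 = 60 ∧ cnt 3 = 45 ∧ cnt 4 = 108 ∧ cnt 5 = 180 ∧
    cnt 6 = 180 ∧ cnt 7 = 90 := by
  decide +kernel

theorem occ_ge (a b c : ℕ) (habc : a + b + c = 6) : cnt (cl a b c) ≤ occ (T a b) := by
  unfold cnt occ
  refine card_le_card ?_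
  intro g hg
  rw [mem_filter] at hg ⊢
  refine ⟨mem_univ _, ?_⟩
  obtain ⟨h6, hi⟩ := sorted g
  have h1 := ind_iso (iso_all _ _ _ h6) hi
  rw [hg.2] at h1
  exact ind_iso (iso_all a b c habc).symm h1

theorem real_form {n p q m N e o : ℕ} (hq : 0 < q) (hm : m ≤ o)
    (h : 4374 * q * n ^ 3 * e + 524880 * p * N ≤ (405 * q + p * m) * n ^ 6) :
    (6 * e / n ^ 3 - 5 / 9 : ℝ) ≤ (p : ℝ) / q * (o / 729 - 720 * N / n ^ 6) := by
  have hq' : (0 : ℝ) < q := by exact_mod_cast hq
  rcases Nat.eq_zero_or_pos n with rfl | hn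
  · have : (0 : ℝ) ≤ (p : ℝ) / q * (o / 729) := by positivity
    simp only [Nat.cast_zero, ne_eq, OfNat.ofNat_ne_zero, not_false_eq_true, zero_pow, div_zero,
      sub_zero]
    linarith
  have hn' : (0 : ℝ) < n := by exact_mod_cast hn
  have h1 : (4374 * q * n ^ 3 * e + 524880 * p * N : ℝ) ≤ (405 * q + p * m) * n ^ 6 := by
    exact_mod_cast h
  have h2 : ((405 * q + p * m) * n ^ 6 : ℝ) ≤ (405 * q + p * o) * n ^ 6 := by
    have : (m : ℝ) ≤ o := by exact_mod_cast hm
    gcongr
  have key : (6 * e / n ^ 3 - 5 / 9 : ℝ) - (p : ℝ) / q * (o / 729 - 720 * N / n ^ 6) =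
      (4374 * q * n ^ 3 * e + 524880 * p * N - (405 * q + p * o) * n ^ 6) / (729 * q * n ^ 6) := by
    field_simp
    ring
  have h3 : (4374 * q * n ^ 3 * e + 524880 * p * N - (405 * q + p * o) * n ^ 6 : ℝ) /
      (729 * q * n ^ 6) ≤ 0 := div_nonpos_of_nonpos_of_nonneg (by linarith) (by positivity)
  linarith

theorem fin0 {n : ℕ} {H : Finset (Finset (Fin n))} (h3 : ∀ e ∈ H, e.card = 3) (hK : K43Free H)
    {F : Finset (Finset (Fin 6))} (h : Iso F Pool.Agent.TH983.FC.C0.FS) (ho : 21 ≤ occ F) :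
    (6 * H.card / n ^ 3 - 5 / 9 : ℝ) ≤ (1 / 2 : ℝ) * (occ F / 729 - 720 * copies F H / n ^ 6) := by
  have h1 := real_form (n := n) (p := 1) (q := 2) (m := 21) (N := copies F H) (e := H.card)
    (by norm_num) ho (by have := base0 h3 hK h; linarith)
  exact_mod_cast h1

theorem fin1 {n : ℕ} {H : Finset (Finset (Fin n))} (h3 : ∀ e ∈ H, e.card = 3) (hK : K43Free H)
    {F : Finset (Finset (Fin 6))} (h : Iso F Pool.Agent.TH983.FC.C1.FS) (ho : 45 ≤ occ F) :
    (6 * H.card / n ^ 3 - 5 / 9 : ℝ) ≤ (2 / 5 : ℝ) * (occ F / 729 - 720 * copies F H / n ^ 6) := by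
  have h1 := real_form (n := n) (p := 2) (q := 5) (m := 45) (N := copies F H) (e := H.card)
    (by norm_num) ho (by have := base1 h3 hK h; linarith)
  exact_mod_cast h1

theorem fin2 {n : ℕ} {H : Finset (Finset (Fin n))} (h3 : ∀ e ∈ H, e.card = 3) (hK : K43Free H)
    {F : Finset (Finset (Fin 6))} (h : Iso F Pool.Agent.TH983.FC.C2.FS) (ho : 60 ≤ occ F) :
    (6 * H.card / n ^ 3 - 5 / 9 : ℝ) ≤ (1 / 5 : ℝ) * (occ F / 729 - 720 * copies F H / n ^ 6) := by
  have h1 := real_form (n := n) (p := 1) (q := 5) (m := 60) (N := copies F H) (e := H.card)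
    (by norm_num) ho (by have := base2 h3 hK h; linarith)
  exact_mod_cast h1

theorem fin3 {n : ℕ} {H : Finset (Finset (Fin n))} (h3 : ∀ e ∈ H, e.card = 3) (hK : K43Free H)
    {F : Finset (Finset (Fin 6))} (h : Iso F Pool.Agent.TH983.FC.C3.FS) (ho : 45 ≤ occ F) :
    (6 * H.card / n ^ 3 - 5 / 9 : ℝ) ≤ (1 / 4 : ℝ) * (occ F / 729 - 720 * copies F H / n ^ 6) := by
  have h1 := real_form (n := n) (p := 1) (q := 4) (m := 45) (N := copies F H) (e := H.card)
    (by norm_num) ho (by have := base3 h3 hK h; linarith)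
  exact_mod_cast h1

theorem fin4 {n : ℕ} {H : Finset (Finset (Fin n))} (h3 : ∀ e ∈ H, e.card = 3) (hK : K43Free H)
    {F : Finset (Finset (Fin 6))} (h : Iso F Pool.Agent.TH983.FC.C4.FS) (ho : 108 ≤ occ F) :
    (6 * H.card / n ^ 3 - 5 / 9 : ℝ) ≤ (1 / 10 : ℝ) * (occ F / 729 - 720 * copies F H / n ^ 6) := by
  have h1 := real_form (n := n) (p := 1) (q := 10) (m := 108) (N := copies F H) (e := H.card)
    (by norm_num) ho (by have := base4 h3 hK h; linarith)
  exact_mod_cast h1

theorem fin5 {n : ℕ} {H : Finset (Finset (Fin n))} (h3 : ∀ e ∈ H, e.card = 3) (hK : K43Free H)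
    {F : Finset (Finset (Fin 6))} (h : Iso F Pool.Agent.TH983.FC.C5.FS) (ho : 180 ≤ occ F) :
    (6 * H.card / n ^ 3 - 5 / 9 : ℝ) ≤ (1 / 10 : ℝ) * (occ F / 729 - 720 * copies F H / n ^ 6) := by
  have h1 := real_form (n := n) (p := 1) (q := 10) (m := 180) (N := copies F H) (e := H.card)
    (by norm_num) ho (by have := base5 h3 hK h; linarith)
  exact_mod_cast h1

theorem fin6 {n : ℕ} {H : Finset (Finset (Fin n))} (h3 : ∀ e ∈ H, e.card = 3) (hK : K43Free H)
    {F : Finset (Finset (Fin 6))} (h : Iso F Pool.Agent.TH983.FC.C6.FS) (ho : 180 ≤ occ F) :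
    (6 * H.card / n ^ 3 - 5 / 9 : ℝ) ≤ (1 / 10 : ℝ) * (occ F / 729 - 720 * copies F H / n ^ 6) := by
  have h1 := real_form (n := n) (p := 1) (q := 10) (m := 180) (N := copies F H) (e := H.card)
    (by norm_num) ho (by have := base6 h3 hK h; linarith)
  exact_mod_cast h1

theorem fin7 {n : ℕ} {H : Finset (Finset (Fin n))} (h3 : ∀ e ∈ H, e.card = 3) (hK : K43Free H)
    {F : Finset (Finset (Fin 6))} (h : Iso F Pool.Agent.TH983.FC.C7.FS) (ho : 90 ≤ occ F) :
    (6 * H.card / n ^ 3 - 5 / 9 : ℝ) ≤ (1 / 5 : ℝ) * (occ F / 729 - 720 * copies F H / n ^ 6) := by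
  have h1 := real_form (n := n) (p := 1) (q := 5) (m := 90) (N := copies F H) (e := H.card)
    (by norm_num) ho (by have := base7 h3 hK h; linarith)
  exact_mod_cast h1

theorem main (a b c : ℕ) (habc : a + b + c = 6) {n : ℕ} {H : Finset (Finset (Fin n))}
    (h3 : ∀ e ∈ H, e.card = 3) (hK : K43Free H) :
    (6 * H.card / n ^ 3 - 5 / 9 : ℝ) ≤
      lam a b c * (occ (T a b) / 729 - 720 * copies (T a b) H / n ^ 6) := by
  obtain ⟨v0, v1, v2, v3, v4, v5, v6, v7⟩ := cnt_val
  obtain rfl : c = 6 - a - b := by omega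
  have ha : a ≤ 6 := by omega
  have hb : b ≤ 6 - a := by omega
  have ho := occ_ge a b _ habc
  clear habc
  interval_cases a
  · interval_cases b
    · exact fin0 h3 hK iso_0_0 (v0.symm.le.trans ho)
    · exact fin0 h3 hK iso_0_1 (v0.symm.le.trans ho)
    · exact fin1 h3 hK iso_0_2 (v1.symm.le.trans ho)
    · exact fin2 h3 hK iso_0_3 (v2.symm.le.trans ho)
    · exact fin3 h3 hK iso_0_4 (v3.symm.le.trans ho)
    · exact fin4 h3 hK iso_0_5 (v4.symm.le.trans ho)
    · exact fin0 h3 hK iso_0_6 (v0.symm.le.trans ho)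
  · interval_cases b
    · exact fin4 h3 hK iso_1_0 (v4.symm.le.trans ho)
    · exact fin4 h3 hK iso_1_1 (v4.symm.le.trans ho)
    · exact fin5 h3 hK iso_1_2 (v5.symm.le.trans ho)
    · exact fin6 h3 hK iso_1_3 (v6.symm.le.trans ho)
    · exact fin4 h3 hK iso_1_4 (v4.symm.le.trans ho)
    · exact fin0 h3 hK iso_1_5 (v0.symm.le.trans ho)
  · interval_cases b
    · exact fin3 h3 hK iso_2_0 (v3.symm.le.trans ho)
    · exact fin6 h3 hK iso_2_1 (v6.symm.le.trans ho)
    · exact fin7 h3 hK iso_2_2 (v7.symm.le.trans ho)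
    · exact fin5 h3 hK iso_2_3 (v5.symm.le.trans ho)
    · exact fin1 h3 hK iso_2_4 (v1.symm.le.trans ho)
  · interval_cases b
    · exact fin2 h3 hK iso_3_0 (v2.symm.le.trans ho)
    · exact fin5 h3 hK iso_3_1 (v5.symm.le.trans ho)
    · exact fin6 h3 hK iso_3_2 (v6.symm.le.trans ho)
    · exact fin2 h3 hK iso_3_3 (v2.symm.le.trans ho)
  · interval_cases b
    · exact fin1 h3 hK iso_4_0 (v1.symm.le.trans ho)
    · exact fin4 h3 hK iso_4_1 (v4.symm.le.trans ho)
    · exact fin3 h3 hK iso_4_2 (v3.symm.le.trans ho)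
  · interval_cases b
    · exact fin0 h3 hK iso_5_0 (v0.symm.le.trans ho)
    · exact fin4 h3 hK iso_5_1 (v4.symm.le.trans ho)
  · interval_cases b
    · exact fin0 h3 hK iso_6_0 (v0.symm.le.trans ho)

section sharp

theorem free4 : ∀ h : Fin 4 → Fin 3, ∃ t : Finset (Fin 4), t.card = 3 ∧ t ∉ turan h := by
  decide +kernel

theorem turan_free {n : ℕ} (g : Fin n → Fin 3) : K43Free (turan g) := by
  intro S hS
  set e := S.orderEmbOfFin hS
  obtain ⟨t, ht, hn⟩ := free4 (g ∘ e)
  refine ⟨t.image e, ?_, ?_, ?_⟩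
  · intro v hv
    obtain ⟨i, -, rfl⟩ := mem_image.mp hv
    exact S.orderEmbOfFin_mem hS _
  · rw [card_image_of_injective _ e.injective, ht]
  · rw [mem_turan g _ e.injective]
    exact hn

/-- the part of a vertex in the division of `3 m` vertices into three blocks -/
def blk (m : ℕ) (v : Fin (3 * m)) : Fin 3 := (finProdFinEquiv.symm v).1

theorem count_ge (m k : ℕ) (P : (Fin k → Fin 3) → Prop) [DecidablePred P]
    [DecidablePred fun x : Fin k → Fin (3 * m) => P (blk m ∘ x)] :
    m ^ k * ((univ : Finset (Fin k → Fin 3)).filter P).card ≤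
      ((univ : Finset (Fin k → Fin (3 * m))).filter fun x => P (blk m ∘ x)).card := by
  have h1 : m ^ k * ((univ : Finset (Fin k → Fin 3)).filter P).card =
      ((univ : Finset (Fin k → Fin m)) ×ˢ ((univ : Finset (Fin k → Fin 3)).filter P)).card := by
    rw [card_product, card_univ, Fintype.card_fun, Fintype.card_fin, Fintype.card_fin]
  rw [h1]
  refine card_le_card_of_injOn (fun u i => finProdFinEquiv (u.2 i, u.1 i)) ?_ ?_
  · rintro ⟨u, h⟩ hu
    rw [mem_coe, mem_product, mem_filter] at hu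
    rw [mem_coe, mem_filter]
    refine ⟨mem_univ _, ?_⟩
    have e : (blk m ∘ fun i => finProdFinEquiv (h i, u i)) = h := by
      funext i
      simp [blk]
    simp only
    rw [e]
    exact hu.2.2
  · rintro ⟨u, h⟩ _ ⟨u', h'⟩ _ he
    have e1 : ∀ i, (h i, u i) = (h' i, u' i) := fun i => finProdFinEquiv.injective (congrFun he i)
    have e2 : u = u' := funext fun i => (Prod.ext_iff.mp (e1 i)).2
    have e3 : h = h' := funext fun i => (Prod.ext_iff.mp (e1 i)).1
    rw [e2, e3]

theorem fiber_six {n : ℕ} (S : Finset (Fin n)) (hS : S.card = 6) :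
    ((univ : Finset (Fin 6 → Fin n)).filter fun x => univ.image x = S).card ≤ 720 := by
  have h := Pool.Agent.H37R3.Cop.fiber_le S hS
  simp only [img] at h
  convert h

theorem copies_turan (m : ℕ) (F : Finset (Finset (Fin 6))) :
    occ F * m ^ 6 ≤ 720 * copies F (turan (blk m)) + 3645 * m ^ 5 := by
  have h1 := count_ge m 6 (fun h => Induces F (turan h) univ)
  have h2 : ((univ : Finset (Fin 6 → Fin (3 * m))).filter
      fun x => Induces F (turan (blk m ∘ x)) univ).card ≤
      ((univ : Finset (Fin 6 → Fin (3 * m))).filter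
        fun x => Induces F (turan (blk m ∘ x)) univ ∧ Function.Injective x).card +
      ((univ : Finset (Fin 6 → Fin (3 * m))).filter fun x => ¬ Function.Injective x).card := by
    refine le_trans (card_le_card ?_) (card_union_le _ _)
    intro x hx
    have hx' := (mem_filter.mp hx).2
    rw [mem_union]
    by_cases h : Function.Injective x
    · left; exact mem_filter.mpr ⟨mem_univ _, hx', h⟩
    · right; exact mem_filter.mpr ⟨mem_univ _, h⟩
  have h3 := Pool.Agent.TH773.FA.card_noninj (V := Fin (3 * m))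
  rw [Fintype.card_fin] at h3
  set TF := (univ : Finset (Finset (Fin (3 * m)))).filter fun S => Induces F (turan (blk m)) S
    with hTF
  have hmap : ∀ x ∈ (univ : Finset (Fin 6 → Fin (3 * m))).filter
      (fun x => Induces F (turan (blk m ∘ x)) univ ∧ Function.Injective x),
      univ.image x ∈ TF := by
    intro x hx
    obtain ⟨⟨f, hf, hfu, hfe⟩, hxi⟩ := (mem_filter.mp hx).2
    rw [hTF, mem_filter]
    refine ⟨mem_univ _, x ∘ f, hxi.comp hf, ?_, ?_⟩
    · rw [← image_image, hfu]
    · intro t ht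
      rw [← hfe t ht, ← image_image, mem_turan _ _ hxi]
  have h4 : ((univ : Finset (Fin 6 → Fin (3 * m))).filter
        fun x => Induces F (turan (blk m ∘ x)) univ ∧ Function.Injective x).card ≤
      720 * TF.card := by
    rw [card_eq_sum_card_fiberwise hmap]
    calc _ ≤ ∑ S ∈ TF, 720 := by
          refine sum_le_sum fun S hS => ?_
          refine (card_le_card ?_).trans (fiber_six S (ind_card (mem_filter.mp hS).2))
          intro x hx
          rw [mem_filter] at hx ⊢
          exact ⟨mem_univ _, hx.2⟩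
      _ = 720 * TF.card := by rw [sum_const, smul_eq_mul, mul_comm]
  have h5 : copies F (turan (blk m)) = TF.card := rfl
  have h6 : occ F = ((univ : Finset (Fin 6 → Fin 3)).filter fun h => Induces F (turan h) univ).card :=
    rfl
  rw [h5, h6, mul_comm]
  have h7 : 15 * (3 * m) ^ 5 = 3645 * m ^ 5 := by ring
  rw [h7] at h3
  refine h1.trans (h2.trans (Nat.add_le_add h4 (le_trans (le_of_eq ?_) h3)))
  congr!

theorem pair_three {V : Type} [Fintype V] (i j : Fin 3) (hij : i ≠ j) :
    ((univ : Finset (Fin 3 → V)).filter fun x => x i = x j).card ≤ Fintype.card V ^ 2 := by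
  have h1 : ((univ : Finset (Fin 3 → V)).filter fun x => x i = x j).card ≤
      (univ : Finset ({k : Fin 3 // k ≠ j} → V)).card := by
    refine card_le_card_of_injOn (fun x k => x k.1) (fun x _ => mem_univ _) ?_
    intro x hx y hy hxy
    have hx' := (mem_filter.mp hx).2
    have hy' := (mem_filter.mp hy).2
    funext k
    by_cases hk : k = j
    · have e := congrFun hxy ⟨i, hij⟩
      simp only at e
      rw [hk, ← hx', ← hy', e]
    · exact congrFun hxy ⟨k, hk⟩
  refine h1.trans ?_
  rw [card_univ, Fintype.card_fun]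
  have h2 : Fintype.card {k : Fin 3 // k ≠ j} = 2 := by
    rw [Fintype.card_subtype_compl, Fintype.card_fin, Fintype.card_subtype_eq]
  rw [h2]

theorem noninj_three {V : Type} [Fintype V] :
    ((univ : Finset (Fin 3 → V)).filter fun x => ¬ Function.Injective x).card ≤
      3 * Fintype.card V ^ 2 := by
  have h1 : ((univ : Finset (Fin 3 → V)).filter fun x => ¬ Function.Injective x) ⊆
      ((univ : Finset (Fin 3 × Fin 3)).filter fun p => p.1 < p.2).biUnion fun p =>
        (univ : Finset (Fin 3 → V)).filter fun x => x p.1 = x p.2 := by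
    intro x hx
    have hx' := (mem_filter.mp hx).2
    rw [Function.Injective] at hx'
    push Not at hx'
    obtain ⟨i, j, hij, hne⟩ := hx'
    rw [mem_biUnion]
    rcases lt_or_gt_of_ne hne with h | h
    · exact ⟨(i, j), by simp [h], by simp [hij]⟩
    · exact ⟨(j, i), by simp [h], by simp [hij]⟩
  refine (card_le_card h1).trans (card_biUnion_le.trans ?_)
  calc _ ≤ ∑ p ∈ (univ : Finset (Fin 3 × Fin 3)).filter (fun p => p.1 < p.2),
        Fintype.card V ^ 2 := by
        refine sum_le_sum fun p hp => pair_three p.1 p.2 ?_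
        exact (mem_filter.mp hp).2.ne
    _ = 3 * Fintype.card V ^ 2 := by
        rw [sum_const, smul_eq_mul]
        congr 1

theorem three_count : ((univ : Finset (Fin 3 → Fin 3)).filter fun h =>
    (univ : Finset (Fin 3)) ∈ turan h).card = 15 := by
  decide +kernel

theorem fiber_three {n : ℕ} (S : Finset (Fin n)) (hS : S.card = 3) :
    ((univ : Finset (Fin 3 → Fin n)).filter fun x => univ.image x = S).card ≤ 6 := by
  have hsub : ((univ : Finset (Fin 3 → Fin n)).filter fun x => univ.image x = S) ⊆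
      (univ : Finset (Fin 3 ↪ S)).image (fun e i => (e i : Fin n)) := by
    intro x hx
    rw [mem_filter] at hx
    have hinj : Function.Injective x := by
      have h1 : (univ.image x).card = (univ : Finset (Fin 3)).card := by
        rw [hx.2, hS]; rfl
      have h2 := Finset.injOn_of_card_image_eq h1
      intro i j hij
      exact h2 (by simp) (by simp) hij
    have hmem : ∀ i, x i ∈ S := fun i => by
      rw [← hx.2]; exact mem_image_of_mem _ (mem_univ _)
    rw [mem_image]
    refine ⟨⟨fun i => ⟨x i, hmem i⟩, ?_⟩, mem_univ _, rfl⟩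
    intro i j hij
    exact hinj (congrArg Subtype.val hij)
  refine (card_le_card hsub).trans (card_image_le.trans ?_)
  rw [card_univ, Fintype.card_embedding_eq, Fintype.card_fin, Fintype.card_coe, hS]
  decide

theorem edges_turan (m : ℕ) : 15 * m ^ 3 ≤ 6 * (turan (blk m)).card + 27 * m ^ 2 := by
  have h1 := count_ge m 3 (fun h => (univ : Finset (Fin 3)) ∈ turan h)
  rw [three_count] at h1
  have h2 : ((univ : Finset (Fin 3 → Fin (3 * m))).filter
      fun x => (univ : Finset (Fin 3)) ∈ turan (blk m ∘ x)).card ≤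
      ((univ : Finset (Fin 3 → Fin (3 * m))).filter
        fun x => (univ : Finset (Fin 3)) ∈ turan (blk m ∘ x) ∧ Function.Injective x).card +
      ((univ : Finset (Fin 3 → Fin (3 * m))).filter fun x => ¬ Function.Injective x).card := by
    refine le_trans (card_le_card ?_) (card_union_le _ _)
    intro x hx
    have hx' := (mem_filter.mp hx).2
    rw [mem_union]
    by_cases h : Function.Injective x
    · left; exact mem_filter.mpr ⟨mem_univ _, hx', h⟩
    · right; exact mem_filter.mpr ⟨mem_univ _, h⟩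
  have h3 := noninj_three (V := Fin (3 * m))
  rw [Fintype.card_fin] at h3
  have hmap : ∀ x ∈ (univ : Finset (Fin 3 → Fin (3 * m))).filter
      (fun x => (univ : Finset (Fin 3)) ∈ turan (blk m ∘ x) ∧ Function.Injective x),
      univ.image x ∈ turan (blk m) := by
    intro x hx
    obtain ⟨h, hxi⟩ := (mem_filter.mp hx).2
    rw [mem_turan _ _ hxi]
    exact h
  have h4 : ((univ : Finset (Fin 3 → Fin (3 * m))).filter
        fun x => (univ : Finset (Fin 3)) ∈ turan (blk m ∘ x) ∧ Function.Injective x).card ≤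
      6 * (turan (blk m)).card := by
    rw [card_eq_sum_card_fiberwise hmap]
    calc _ ≤ ∑ S ∈ turan (blk m), 6 := by
          refine sum_le_sum fun S hS => ?_
          have hS3 : S.card = 3 := by
            unfold turan at hS
            exact (mem_powersetCard.mp (mem_filter.mp hS).1).2
          refine (card_le_card ?_).trans (fiber_three S hS3)
          intro x hx
          rw [mem_filter] at hx ⊢
          exact ⟨mem_univ _, hx.2⟩
      _ = 6 * (turan (blk m)).card := by rw [sum_const, smul_eq_mul, mul_comm]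
  have h7 : 3 * (3 * m) ^ 2 = 27 * m ^ 2 := by ring
  rw [h7] at h3
  rw [mul_comm]
  refine h1.trans (h2.trans (Nat.add_le_add h4 (le_trans (le_of_eq ?_) h3)))
  congr!

end sharp

theorem lam_ge (a b c : ℕ) : 1 / 10 ≤ lam a b c := by
  unfold lam
  split <;> norm_num

theorem lam_le (a b c : ℕ) : lam a b c ≤ 1 / 2 := by
  unfold lam
  split <;> norm_num

/-- For each of the eight six-vertex subgraphs `F = T a b` of Turán's construction, the excess of the
edge density of a `K_4^3`-free 3-graph over `5/9` is at most a constant times the amount by which its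
density of induced copies of `F` falls short of that of Turán's construction; for every `m` the
construction with three parts of size `m` shows that all these inequalities are sharp. -/
theorem result :
    (∀ a b c : ℕ, a + b + c = 6 → ∃ lam : ℝ, 1 / 10 ≤ lam ∧ lam ≤ 1 / 2 ∧
      ∀ (n : ℕ) (H : Finset (Finset (Fin n))), (∀ e ∈ H, e.card = 3) → K43Free H →
        (6 * H.card / n ^ 3 - 5 / 9 : ℝ) ≤
          lam * (occ (T a b) / 729 - 720 * copies (T a b) H / n ^ 6)) ∧
    (∀ m : ℕ, ∃ H : Finset (Finset (Fin (3 * m))), (∀ e ∈ H, e.card = 3) ∧ K43Free H ∧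
      15 * m ^ 3 ≤ 6 * H.card + 27 * m ^ 2 ∧
      ∀ a b c : ℕ, a + b + c = 6 →
        occ (T a b) * m ^ 6 ≤ 720 * copies (T a b) H + 3645 * m ^ 5) := by
  refine ⟨fun a b c habc => ⟨lam a b c, lam_ge a b c, lam_le a b c,
    fun n H h3 hK => main a b c habc h3 hK⟩, fun m => ?_⟩
  refine ⟨turan (blk m), ?_, turan_free _, edges_turan m, fun a b c _ => copies_turan m _⟩
  intro e he
  unfold turan at he
  exact (mem_powersetCard.mp (mem_filter.mp he).1).2

end Pool.Agent.Results.MP_466853_co.FewerCopies
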