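import Pool.Agent.TH865.OG.Rule4
import Pool.Agent.TH865.OG.Cc0
import Pool.Agent.TH865.OG.Low4
import Pool.Agent.TH173.OE.Main
import Pool.Agent.TH173.TO.Main62

/-!
# Turán's (3,4)-problem for 3-graphs encoded by ordered graphs

A 3-graph `H` on the vertices `0 < 1 < ... < n - 1` is encoded by a graph `G` on the same vertices
if it depends only on the ordered graph which `G` induces on a triple whether the triple is an edge.
There are eight ordered graphs with three vertices, so 256 rules.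

Turán's construction is encoded by an ordered graph in four ways (up to changes of the rule on
triples of types which do not occur); this concerns 14 rules. It is shown that for each of the
other 242 rules the edge density of a `K_4^3`-free 3-graph encoded by an ordered graph is at most
`0.54 + O(1/n)`, less than `5/9`, and that for ten of the 14 exceptional rules Turán's
conjecture holds exactly: such a `K_4^3`-free 3-graph on `n` vertices has at most `C(n,3) - f(n)`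
edges, for every `n`. The ten rules contain, for suitable ordered graphs, all constructions of
Kostochka. The four remaining rules are `{1,3,4,5}` and its images under reversing the order and
complementing the graph; for them the density is at most `0.558 + O(1/n)`.

The upper bounds of the 242 rules and of the four remaining ones are sums of squares certificates
over the ordered graphs with five vertices; the exact bounds are `Pool.Agent.TH173.OE.main` (a potential function argument),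
`Pool.Agent.TH173.TO.main` and `Pool.Agent.TH173.TO.main62` (deficits of two acyclic families of
lists).
-/

set_option autoImplicit false
open Finset

namespace Pool.Agent.Results.MP_466853_co.OrderedEncodings

/-- The 3-graph `H` has no four vertices spanning all four triples. -/
def K43Free {n : ℕ} (H : Finset (Finset (Fin n))) : Prop :=
  ∀ S : Finset (Fin n), S.card = 4 → ∃ s ⊆ S, s.card = 3 ∧ s ∉ H

open scoped Classical in
/-- The type of the ordered graph which `G` induces on the triple `a < b < c`: a number from 0 to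
7 whose binary digits say whether `ab`, `ac`, `bc` are edges of `G`. -/
noncomputable def type {n : ℕ} (G : Fin n → Fin n → Prop) (a b c : Fin n) : ℕ :=
  (if G a b then 1 else 0) + (if G a c then 2 else 0) + (if G b c then 4 else 0)

/-- `H` is encoded by the graph `G` on the ordered set of vertices with the rule `R`: a triple
`a < b < c` is an edge of `H` if and only if its type belongs to `R`. -/
def EncodedBy {n : ℕ} (R : Set ℕ) (G : Fin n → Fin n → Prop) (H : Finset (Finset (Fin n))) :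
    Prop :=
  ∀ a b c : Fin n, a < b → b < c → (({a, b, c} : Finset (Fin n)) ∈ H ↔ type G a b c ∈ R)

/-- The 14 exceptional rules: `{4,5,6}` with any of the types 1, 2 added, and the images of these
rules under reversing the order (types 1 and 4, and 3 and 6 are exchanged), complementing the graph
(`t` becomes `7 - t`), or both. -/
def Exceptional (R : Set ℕ) : Prop :=
  (4 ∈ R ∧ 5 ∈ R ∧ 6 ∈ R ∧ 0 ∉ R ∧ 3 ∉ R ∧ 7 ∉ R) ∨
  (1 ∈ R ∧ 3 ∈ R ∧ 5 ∈ R ∧ 0 ∉ R ∧ 6 ∉ R ∧ 7 ∉ R) ∨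
  (1 ∈ R ∧ 2 ∈ R ∧ 3 ∈ R ∧ 0 ∉ R ∧ 4 ∉ R ∧ 7 ∉ R) ∨
  (2 ∈ R ∧ 4 ∈ R ∧ 6 ∈ R ∧ 0 ∉ R ∧ 1 ∉ R ∧ 7 ∉ R)

open Pool.Agent.TH865.OG in
open scoped Classical in
theorem upper {R : Set ℕ} (hR : ¬ Exceptional R) {n : ℕ} (G : Fin n → Fin n → Prop)
    (H : Finset (Finset (Fin n))) (hG : ∀ x y, G x y → G y x) (h3 : ∀ e ∈ H, e.card = 3)
    (hK : K43Free H) (hE : EncodedBy R G H) :
    (H.card : ℝ) ≤ 9 / 100 * (n : ℝ) ^ 3 + 150 * (n : ℝ) ^ 2 := by
  have gs : ∀ x y, G x y ↔ G y x := fun x y => ⟨hG x y, hG y x⟩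
  set g : Fin n → Fin n → ℕ := fun x y => if G x y then 1 else 0 with hg
  have g1 : ∀ x y, g x y ≤ 1 := by
    intro x y
    simp only [hg]
    split_ifs <;> omega
  have g2 : ∀ x y, g x y = g y x := by
    intro x y
    simp only [hg]
    rw [if_congr (gs x y) rfl rfl]
  have gt : ∀ a b c, type G a b c = typ g a b c := by
    intro a b c
    unfold type typ
    simp only [hg]
    split_ifs <;> rfl
  refine rule4 g1 g2 h3 hK (fun t => decide ((t : ℕ) ∈ R)) ?_ ?_
  · intro a b c hab hbc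
    rw [hE a b c hab hbc, gt]
    constructor
    · intro h
      exact ⟨⟨typ g a b c, typ_lt g1 a b c⟩, rfl, decide_eq_true h⟩
    · rintro ⟨t, ht, ht'⟩
      rw [← ht]
      exact of_decide_eq_true ht'
  · by_contra hcon
    rw [Bool.not_eq_false] at hcon
    apply hR
    unfold TL at hcon
    simp only [Bool.or_eq_true, Bool.and_eq_true, Bool.not_eq_true', decide_eq_true_eq,
      decide_eq_false_iff_not] at hcon
    rcases hcon with ((h | h) | h) | h
    · exact Or.inl ⟨h.1.1.1.1.1, h.1.1.1.1.2, h.1.1.1.2, h.1.1.2, h.1.2, h.2⟩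
    · exact Or.inr (Or.inl ⟨h.1.1.1.1.1, h.1.1.1.1.2, h.1.1.1.2, h.1.1.2, h.1.2, h.2⟩)
    · exact Or.inr (Or.inr (Or.inl ⟨h.1.1.1.1.1, h.1.1.1.1.2, h.1.1.1.2, h.1.1.2, h.1.2, h.2⟩))
    · exact Or.inr (Or.inr (Or.inr ⟨h.1.1.1.1.1, h.1.1.1.1.2, h.1.1.1.2, h.1.1.2, h.1.2, h.2⟩))

open Pool.Agent.TH865.OG in
theorem type_eq {n : ℕ} (q : Fin n → Fin 3) (f : Fin 3 → Fin 3 → Bool) (a b c : Fin n) :
    type (fun x y => f (q x) (q y) = true) a b c = Low4.pt f (q a) (q b) (q c) := by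
  have h : ∀ (u v : Fin n) (k : ℕ), (if f (q u) (q v) = true then k else 0)
      = k * (f (q u) (q v)).toNat := by
    intro u v k
    cases f (q u) (q v) <;> simp
  unfold type Low4.pt
  beta_reduce
  have h1 := h a b 1
  have h2 := h a c 2
  have h3 := h b c 4
  rw [one_mul] at h1
  rw [← h1, ← h2, ← h3]
  congr

open Pool.Agent.TH865.OG in
theorem lower {R : Set ℕ} (hR : Exceptional R) (n : ℕ) :
    ∃ (G : Fin n → Fin n → Prop) (H : Finset (Finset (Fin n))),
      (∀ x y, G x y → G y x) ∧ (∀ e ∈ H, e.card = 3) ∧ K43Free H ∧ EncodedBy R G H ∧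
      5 / 54 * (n : ℝ) ^ 3 - 2 * (n : ℝ) ^ 2 ≤ (H.card : ℝ) := by
  have key : ∀ (q : Fin n → Fin 3) (f : Fin 3 → Fin 3 → Bool), Low4.Bal q →
      (∀ i j, f i j = f j i) →
      (∀ a b c : Fin n, a < b → b < c → ((Low4.E (q a) (q b) (q c) = true) ↔
        Low4.pt f (q a) (q b) (q c) ∈ R)) →
      ∃ (G : Fin n → Fin n → Prop) (H : Finset (Finset (Fin n))),
      (∀ x y, G x y → G y x) ∧ (∀ e ∈ H, e.card = 3) ∧ K43Free H ∧ EncodedBy R G H ∧
      5 / 54 * (n : ℝ) ^ 3 - 2 * (n : ℝ) ^ 2 ≤ (H.card : ℝ) := by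
    intro q f hq hf h
    refine ⟨fun x y => f (q x) (q y) = true, Low4.H q, ?_, fun e he => Low4.H_card he,
      fun S hS => Low4.H_free S hS, ?_, Low4.H_large hq⟩
    · intro x y hxy
      rw [hf]
      exact hxy
    · intro a b c hab hbc
      rw [Low4.mem_H hab.ne (hab.trans hbc).ne hbc.ne, type_eq]
      exact h a b c hab hbc
  have two : ∀ {e : Bool} {t u v w x y z : ℕ}, (u ∈ R ∧ v ∈ R ∧ w ∈ R ∧ x ∉ R ∧ y ∉ R ∧ z ∉ R) →
      ((e = true ∧ (t = u ∨ t = v ∨ t = w)) ∨ (e = false ∧ (t = x ∨ t = y ∨ t = z))) →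
      (e = true ↔ t ∈ R) := by
    rintro e t u v w x y z ⟨h1, h2, h3, h4, h5, h6⟩ h
    rcases h with ⟨he, h | h | h⟩ | ⟨he, h | h | h⟩ <;> subst h <;> subst he <;> simp_all
  rcases hR with h | h | h | h
  · exact key Low4.p Low4.adj Low4.bal_p Low4.adj_symm fun a b c hab hbc =>
      two h (Low4.up1 _ _ _ (Low4.p_mono hab) (Low4.p_mono hbc))
  · exact key Low4.p' Low4.adj Low4.bal_p' Low4.adj_symm fun a b c hab hbc =>
      two h (Low4.dn1 _ _ _ (Low4.p'_anti hbc) (Low4.p'_anti hab))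
  · exact key Low4.p (fun i j => !Low4.adj i j) Low4.bal_p
      (fun i j => by rw [Low4.adj_symm]) fun a b c hab hbc =>
      two h (Low4.up2 _ _ _ (Low4.p_mono hab) (Low4.p_mono hbc))
  · exact key Low4.p' (fun i j => !Low4.adj i j) Low4.bal_p'
      (fun i j => by rw [Low4.adj_symm]) fun a b c hab hbc =>
      two h (Low4.dn2 _ _ _ (Low4.p'_anti hbc) (Low4.p'_anti hab))

/-- The four exceptional rules for which the exact bound is not proved: `{1,3,4,5}`, `{1,4,5,6}`,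
`{2,3,4,6}`, `{1,2,3,6}`. -/
def Remaining (R : Set ℕ) : Prop :=
  (1 ∈ R ∧ 3 ∈ R ∧ 4 ∈ R ∧ 5 ∈ R ∧ 0 ∉ R ∧ 2 ∉ R ∧ 6 ∉ R ∧ 7 ∉ R) ∨
  (1 ∈ R ∧ 4 ∈ R ∧ 5 ∈ R ∧ 6 ∈ R ∧ 0 ∉ R ∧ 2 ∉ R ∧ 3 ∉ R ∧ 7 ∉ R) ∨
  (2 ∈ R ∧ 3 ∈ R ∧ 4 ∈ R ∧ 6 ∈ R ∧ 0 ∉ R ∧ 1 ∉ R ∧ 5 ∉ R ∧ 7 ∉ R) ∨
  (1 ∈ R ∧ 2 ∈ R ∧ 3 ∈ R ∧ 6 ∈ R ∧ 0 ∉ R ∧ 4 ∉ R ∧ 5 ∉ R ∧ 7 ∉ R)

/-- The four minimal exceptional rules `{4,5,6}`, `{1,3,5}`, `{1,2,3}`, `{2,4,6}`. -/
def Minimal (R : Set ℕ) : Prop :=
  (4 ∈ R ∧ 5 ∈ R ∧ 6 ∈ R ∧ 0 ∉ R ∧ 1 ∉ R ∧ 2 ∉ R ∧ 3 ∉ R ∧ 7 ∉ R) ∨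
  (1 ∈ R ∧ 3 ∈ R ∧ 5 ∈ R ∧ 0 ∉ R ∧ 2 ∉ R ∧ 4 ∉ R ∧ 6 ∉ R ∧ 7 ∉ R) ∨
  (1 ∈ R ∧ 2 ∈ R ∧ 3 ∈ R ∧ 0 ∉ R ∧ 4 ∉ R ∧ 5 ∉ R ∧ 6 ∉ R ∧ 7 ∉ R) ∨
  (2 ∈ R ∧ 4 ∈ R ∧ 6 ∈ R ∧ 0 ∉ R ∧ 1 ∉ R ∧ 3 ∉ R ∧ 5 ∉ R ∧ 7 ∉ R)

/-- Turán's number `f(n)`: `f(3s) = s(s-1)(2s-1)`, `f(3s+1) = s^2(2s-1)`, `f(3s+2) = s^2(2s+1)`.
Turán's construction has `C(n,3) - f(n)` edges. -/
def turan (n : ℕ) : ℕ :=
  if n % 3 = 0 then (n / 3) * (n / 3 - 1) * (2 * (n / 3) - 1)
  else if n % 3 = 1 then (n / 3) ^ 2 * (2 * (n / 3) - 1)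
  else (n / 3) ^ 2 * (2 * (n / 3) + 1)

open scoped Classical in
/-- the bound `Pool.Agent.TH173.OE.main` for the reversed order -/
theorem reversed {n : ℕ} (P : Fin n → Fin n → Prop) (H : Finset (Finset (Fin n)))
    (h3 : ∀ e ∈ H, e.card = 3)
    (hH : ∀ a b c : Fin n, a < b → b < c → ({a, b, c} : Finset (Fin n)) ∈ H →
      P b c ∧ ¬ (P a b ∧ P a c)) :
    H.card + turan n ≤ n.choose 3 := by
  have inj : Function.Injective (fun e : Finset (Fin n) => e.image Fin.rev) :=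
    Finset.image_injective Fin.rev_injective
  have h := Pool.Agent.TH173.OE.main (fun x y => P (Fin.rev y) (Fin.rev x))
    (H.image fun e => e.image Fin.rev) ?_ ?_
  · rw [card_image_of_injective _ inj] at h
    exact h
  · intro e he
    obtain ⟨e', he', rfl⟩ := mem_image.1 he
    rw [card_image_of_injective _ Fin.rev_injective]
    exact h3 e' he'
  · intro a b c hab hbc habc
    obtain ⟨e, he, hea⟩ := mem_image.1 habc
    have he2 : e = {Fin.rev c, Fin.rev b, Fin.rev a} := by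
      have h1 := congrArg (fun e : Finset (Fin n) => e.image Fin.rev) hea
      simp only [image_image, image_insert, image_singleton] at h1
      have h2 : (Fin.rev ∘ Fin.rev : Fin n → Fin n) = id := by
        funext x
        simp
      rw [h2, image_id] at h1
      rw [h1]
      ext x
      simp only [mem_insert, mem_singleton]
      tauto
    rw [he2] at he
    obtain ⟨h1, h2⟩ := hH _ _ _ (Fin.rev_lt_rev.2 hbc) (Fin.rev_lt_rev.2 hab) he
    exact ⟨h1, fun h => h2 ⟨h.2, h.1⟩⟩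

open scoped Classical in
theorem exactMinimal {R : Set ℕ} (hR : Minimal R) {n : ℕ} (G : Fin n → Fin n → Prop)
    (H : Finset (Finset (Fin n))) (h3 : ∀ e ∈ H, e.card = 3) (hE : EncodedBy R G H) :
    H.card + turan n ≤ n.choose 3 := by
  have key : ∀ a b c : Fin n, a < b → b < c → ({a, b, c} : Finset (Fin n)) ∈ H →
      type G a b c ∈ R := fun a b c hab hbc h => (hE a b c hab hbc).1 h
  rcases hR with h | h | h | h <;> obtain ⟨h1, h2, h3', h4, h5, h6, h7, h8⟩ := h
  · refine reversed G H h3 fun a b c hab hbc he => ?_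
    have ht := key a b c hab hbc he
    unfold type at ht
    by_cases e1 : G a b <;> by_cases e2 : G a c <;> by_cases e3 : G b c <;> simp_all
  · refine Pool.Agent.TH173.OE.main G H h3 fun a b c hab hbc he => ?_
    have ht := key a b c hab hbc he
    unfold type at ht
    by_cases e1 : G a b <;> by_cases e2 : G a c <;> by_cases e3 : G b c <;> simp_all
  · refine reversed (fun x y => ¬ G x y) H h3 fun a b c hab hbc he => ?_
    have ht := key a b c hab hbc he
    unfold type at ht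
    by_cases e1 : G a b <;> by_cases e2 : G a c <;> by_cases e3 : G b c <;> simp_all
  · refine Pool.Agent.TH173.OE.main (fun x y => ¬ G x y) H h3 fun a b c hab hbc he => ?_
    have ht := key a b c hab hbc he
    unfold type at ht
    by_cases e1 : G a b <;> by_cases e2 : G a c <;> by_cases e3 : G b c <;> simp_all

open scoped Classical in
/-- the bound `Pool.Agent.TH173.TO.main62` for the reversed order -/
theorem reversed62 {n : ℕ} (P : Fin n → Fin n → Prop) (H : Finset (Finset (Fin n)))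
    (h3 : ∀ e ∈ H, e.card = 3) (hK : K43Free H)
    (hH : ∀ a b c : Fin n, a < b → b < c → (({a, b, c} : Finset (Fin n)) ∈ H ↔
      ¬ (P a b ∧ P a c) ∧ (P a b ∨ P a c ∨ P b c))) :
    H.card + turan n ≤ n.choose 3 := by
  have inj : Function.Injective (fun e : Finset (Fin n) => e.image Fin.rev) :=
    Finset.image_injective Fin.rev_injective
  have hrr : ∀ e : Finset (Fin n), (e.image Fin.rev).image Fin.rev = e := by
    intro e
    rw [image_image]
    have h2 : (Fin.rev ∘ Fin.rev : Fin n → Fin n) = id := by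
      funext x
      simp
    rw [h2, image_id]
  have hmem : ∀ e : Finset (Fin n), e ∈ (H.image fun e => e.image Fin.rev) ↔
      e.image Fin.rev ∈ H := by
    intro e
    rw [mem_image]
    constructor
    · rintro ⟨e', he', rfl⟩
      rw [hrr]
      exact he'
    · intro h
      exact ⟨_, h, hrr e⟩
  have h := Pool.Agent.TH173.TO.main62 (fun x y => P (Fin.rev y) (Fin.rev x))
    (H.image fun e => e.image Fin.rev) ?_ ?_ ?_
  · rw [card_image_of_injective _ inj] at h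
    exact h
  · intro e he
    rw [hmem] at he
    rw [← card_image_of_injective e Fin.rev_injective]
    exact h3 _ he
  · intro S hS
    obtain ⟨s, hs, hs3, hsH⟩ := hK (S.image Fin.rev)
      (by rw [card_image_of_injective _ Fin.rev_injective]; exact hS)
    refine ⟨s.image Fin.rev, ?_, ?_, ?_⟩
    · rw [← hrr S]
      exact image_subset_image hs
    · rw [card_image_of_injective _ Fin.rev_injective]
      exact hs3
    · rw [hmem, hrr]
      exact hsH
  · intro a b c hab hbc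
    rw [hmem]
    have he2 : ({a, b, c} : Finset (Fin n)).image Fin.rev
        = {Fin.rev c, Fin.rev b, Fin.rev a} := by
      simp only [image_insert, image_singleton]
      ext x
      simp only [mem_insert, mem_singleton]
      tauto
    rw [he2, hH _ _ _ (Fin.rev_lt_rev.2 hbc) (Fin.rev_lt_rev.2 hab)]
    tauto

open scoped Classical in
theorem exact {R : Set ℕ} (hR : Exceptional R) (hR' : ¬ Remaining R) {n : ℕ}
    (G : Fin n → Fin n → Prop) (H : Finset (Finset (Fin n))) (h3 : ∀ e ∈ H, e.card = 3)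
    (hK : K43Free H) (hE : EncodedBy R G H) :
    H.card + turan n ≤ n.choose 3 := by
  by_cases hM : Minimal R
  · exact exactMinimal hM G H h3 hE
  -- `{1,2,3,5}` and `{2,4,5,6}`
  have a1 : (1 ∈ R ∧ 2 ∈ R ∧ 3 ∈ R ∧ 5 ∈ R ∧ 0 ∉ R ∧ 4 ∉ R ∧ 6 ∉ R ∧ 7 ∉ R) →
      H.card + turan n ≤ n.choose 3 := by
    rintro ⟨h1, h2, h3', h4, h5, h6, h7, h8⟩
    refine Pool.Agent.TH173.TO.main G H h3 hK fun a b c hab hbc => ?_
    rw [hE a b c hab hbc]
    unfold type
    by_cases e1 : G a b <;> by_cases e2 : G a c <;> by_cases e3 : G b c <;> simp_all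
  have a2 : (2 ∈ R ∧ 4 ∈ R ∧ 5 ∈ R ∧ 6 ∈ R ∧ 0 ∉ R ∧ 1 ∉ R ∧ 3 ∉ R ∧ 7 ∉ R) →
      H.card + turan n ≤ n.choose 3 := by
    rintro ⟨h1, h2, h3', h4, h5, h6, h7, h8⟩
    refine Pool.Agent.TH173.TO.main (fun x y => ¬ G x y) H h3 hK fun a b c hab hbc => ?_
    rw [hE a b c hab hbc]
    unfold type
    by_cases e1 : G a b <;> by_cases e2 : G a c <;> by_cases e3 : G b c <;> simp_all
  -- `{1,2,3,4,5}`, `{2,3,4,5,6}`, `{1,2,4,5,6}` and `{1,2,3,5,6}`
  have b1 : (1 ∈ R ∧ 2 ∈ R ∧ 3 ∈ R ∧ 4 ∈ R ∧ 5 ∈ R ∧ 0 ∉ R ∧ 6 ∉ R ∧ 7 ∉ R) →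
      H.card + turan n ≤ n.choose 3 := by
    rintro ⟨h1, h2, h3', h4, h5, h6, h7, h8⟩
    refine Pool.Agent.TH173.TO.main62 G H h3 hK fun a b c hab hbc => ?_
    rw [hE a b c hab hbc]
    unfold type
    by_cases e1 : G a b <;> by_cases e2 : G a c <;> by_cases e3 : G b c <;> simp_all
  have b2 : (2 ∈ R ∧ 3 ∈ R ∧ 4 ∈ R ∧ 5 ∈ R ∧ 6 ∈ R ∧ 0 ∉ R ∧ 1 ∉ R ∧ 7 ∉ R) →
      H.card + turan n ≤ n.choose 3 := by
    rintro ⟨h1, h2, h3', h4, h5, h6, h7, h8⟩
    refine Pool.Agent.TH173.TO.main62 (fun x y => ¬ G x y) H h3 hK fun a b c hab hbc => ?_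
    rw [hE a b c hab hbc]
    unfold type
    by_cases e1 : G a b <;> by_cases e2 : G a c <;> by_cases e3 : G b c <;> simp_all
  have b3 : (1 ∈ R ∧ 2 ∈ R ∧ 4 ∈ R ∧ 5 ∈ R ∧ 6 ∈ R ∧ 0 ∉ R ∧ 3 ∉ R ∧ 7 ∉ R) →
      H.card + turan n ≤ n.choose 3 := by
    rintro ⟨h1, h2, h3', h4, h5, h6, h7, h8⟩
    refine reversed62 G H h3 hK fun a b c hab hbc => ?_
    rw [hE a b c hab hbc]
    unfold type
    by_cases e1 : G a b <;> by_cases e2 : G a c <;> by_cases e3 : G b c <;> simp_all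
  have b4 : (1 ∈ R ∧ 2 ∈ R ∧ 3 ∈ R ∧ 5 ∈ R ∧ 6 ∈ R ∧ 0 ∉ R ∧ 4 ∉ R ∧ 7 ∉ R) →
      H.card + turan n ≤ n.choose 3 := by
    rintro ⟨h1, h2, h3', h4, h5, h6, h7, h8⟩
    refine reversed62 (fun x y => ¬ G x y) H h3 hK fun a b c hab hbc => ?_
    rw [hE a b c hab hbc]
    unfold type
    by_cases e1 : G a b <;> by_cases e2 : G a c <;> by_cases e3 : G b c <;> simp_all
  unfold Exceptional at hR
  unfold Remaining at hR'
  unfold Minimal at hM
  by_cases m1 : 1 ∈ R <;> by_cases m2 : 2 ∈ R <;> by_cases m3 : 3 ∈ R <;>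
    by_cases m4 : 4 ∈ R <;> by_cases m5 : 5 ∈ R <;> by_cases m6 : 6 ∈ R <;>
    simp_all

open Pool.Agent.TH865.OG in
open scoped Classical in
theorem remaining {R : Set ℕ} (hR : Remaining R) {n : ℕ} (G : Fin n → Fin n → Prop)
    (H : Finset (Finset (Fin n))) (hG : ∀ x y, G x y → G y x) (h3 : ∀ e ∈ H, e.card = 3)
    (hK : K43Free H) (hE : EncodedBy R G H) :
    (H.card : ℝ) ≤ 93 / 1000 * (n : ℝ) ^ 3 + 150 * (n : ℝ) ^ 2 := by
  have gs : ∀ x y, G x y ↔ G y x := fun x y => ⟨hG x y, hG y x⟩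
  set g : Fin n → Fin n → ℕ := fun x y => if G x y then 1 else 0 with hg
  have g1 : ∀ x y, g x y ≤ 1 := by
    intro x y
    simp only [hg]
    split_ifs <;> omega
  have g2 : ∀ x y, g x y = g y x := by
    intro x y
    simp only [hg]
    rw [if_congr (gs x y) rfl rfl]
  have gt : ∀ a b c, type G a b c = typ g a b c := by
    intro a b c
    unfold type typ
    simp only [hg]
    split_ifs <;> rfl
  have key : ∀ M : ℕ, Cert58 M → (∀ t < 8, (t ∈ R ↔ ee M t = 1)) →
      (H.card : ℝ) ≤ 93 / 1000 * (n : ℝ) ^ 3 + 150 * (n : ℝ) ^ 2 := by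
    intro M hM ht
    refine bound58 hM g1 g2 h3 hK ?_
    intro a b c hab hbc
    rw [hE a b c hab hbc, gt]
    exact ht _ (typ_lt g1 a b c)
  rcases hR with h | h | h | h <;> obtain ⟨h1, h2, h3', h4, h5, h6, h7, h8⟩ := h
  · refine key 58 cc_58 fun t ht => ?_
    interval_cases t <;> simp_all [ee]
  · refine key 114 cc_114 fun t ht => ?_
    interval_cases t <;> simp_all [ee]
  · refine key 92 cc_92 fun t ht => ?_
    interval_cases t <;> simp_all [ee]
  · refine key 78 cc_78 fun t ht => ?_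
    interval_cases t <;> simp_all [ee]

/-- **Turán's (3,4)-problem for 3-graphs encoded by ordered graphs.** Let `R` be one of the 256
rules. (1) If `R` is not one of the 14 exceptional rules, then every `K_4^3`-free 3-graph encoded by
an ordered graph with the rule `R` has at most `0.09 n^3 + 150 n^2` edges, that is, density at most
`0.54 + O(1/n)`, while Turán's conjectured bound is `5/9`. (2) If `R` is one of the 14 exceptional
rules, but not one of the four remaining ones, then every `K_4^3`-free 3-graph encoded by an ordered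
graph with the rule `R` has at most `C(n,3) - f(n)` edges, Turán's conjectured bound, for every `n`.
(3) For the four remaining rules there are at most `0.093 n^3 + 150 n^2` edges, that is, the density
is at most `0.558 + O(1/n)`. (4) If `R` is exceptional, then for every `n` there is a `K_4^3`-free
one with at least `5/54 n^3 - 2 n^2` edges (Turán's construction). -/
theorem result (R : Set ℕ) :
    (¬ Exceptional R → ∀ (n : ℕ) (G : Fin n → Fin n → Prop) (H : Finset (Finset (Fin n))),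
      (∀ x y, G x y → G y x) → (∀ e ∈ H, e.card = 3) → K43Free H → EncodedBy R G H →
      (H.card : ℝ) ≤ 9 / 100 * (n : ℝ) ^ 3 + 150 * (n : ℝ) ^ 2) ∧
    (Exceptional R → ¬ Remaining R →
      ∀ (n : ℕ) (G : Fin n → Fin n → Prop) (H : Finset (Finset (Fin n))),
      (∀ x y, G x y → G y x) → (∀ e ∈ H, e.card = 3) → K43Free H → EncodedBy R G H →
      H.card + turan n ≤ n.choose 3) ∧
    (Remaining R → ∀ (n : ℕ) (G : Fin n → Fin n → Prop) (H : Finset (Finset (Fin n))),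
      (∀ x y, G x y → G y x) → (∀ e ∈ H, e.card = 3) → K43Free H → EncodedBy R G H →
      (H.card : ℝ) ≤ 93 / 1000 * (n : ℝ) ^ 3 + 150 * (n : ℝ) ^ 2) ∧
    (Exceptional R → ∀ n : ℕ, ∃ (G : Fin n → Fin n → Prop) (H : Finset (Finset (Fin n))),
      (∀ x y, G x y → G y x) ∧ (∀ e ∈ H, e.card = 3) ∧ K43Free H ∧ EncodedBy R G H ∧
      5 / 54 * (n : ℝ) ^ 3 - 2 * (n : ℝ) ^ 2 ≤ (H.card : ℝ)) :=
  ⟨fun hR _ G H hG h3 hK hE => upper hR G H hG h3 hK hE,
    fun hR hR' _ G H _ h3 hK hE => exact hR hR' G H h3 hK hE,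
    fun hR _ G H hG h3 hK hE => remaining hR G H hG h3 hK hE, fun hR n => lower hR n⟩

end Pool.Agent.Results.MP_466853_co.OrderedEncodings
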