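import Pool.Agent.TH512.FA.AFin
import Pool.Agent.W38.TC.Lower

/-!
# Turán's `(3,4)`-conjecture for 3-graphs whose link graphs contain no induced path on five vertices

`G` is a 3-graph on `n` vertices in which every four vertices contain an edge. If no link graph of
`G` contains the path on five vertices as an induced subgraph, then
`|G| ≥ (2/27) n³ - n²/2 + n/3`, which is Turán's bound `4/9` for the density. This includes the
3-graphs all of whose link graphs are cographs (have no induced path on four vertices); Turán's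
construction is one of them, so that `4/9` is the exact minimum density in both classes.

The bound follows from an inequality for all covering 3-graphs: `graphA`, ..., `graphE` are five
3-graphs on six vertices, each with a vertex whose link graph is a path on five vertices, and
`4 n⁶ + 18 n⁴ ≤ 54 n³ |G| + 27 n⁵ + 1944 N`, where `N` is the number of six-vertex sets which induce
one of them in `G`.
-/

set_option autoImplicit false
set_option maxRecDepth 100000
open Finset
open scoped Classical

namespace Pool.Agent.Results.MP_466853_co.PathFreeLinks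

/-- Every four vertices contain an edge of the 3-graph `G`. -/
def CoversQuadruples {n : ℕ} (G : Finset (Finset (Fin n))) : Prop :=
  ∀ S : Finset (Fin n), S.card = 4 → ∃ s ⊆ S, s ∈ G

/-- The set `S` of vertices induces a copy of the 3-graph `F` in `G`: there is a bijection from the
vertices of `F` to `S` that maps edges to edges and non-edges to non-edges. -/
def Induces {k n : ℕ} (F : Finset (Finset (Fin k))) (G : Finset (Finset (Fin n)))
    (S : Finset (Fin n)) : Prop :=
  ∃ f : Fin k → Fin n, Function.Injective f ∧ univ.image f = S ∧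
    ∀ t : Finset (Fin k), t.card = 3 → (t.image f ∈ G ↔ t ∈ F)

/-- The 3-graph on `0, ..., 5` with edges 012 013 023 134 235 145 245 345. -/
def graphA : Finset (Finset (Fin 6)) :=
  {{0, 1, 2}, {0, 1, 3}, {0, 2, 3}, {1, 3, 4}, {2, 3, 5}, {1, 4, 5}, {2, 4, 5}, {3, 4, 5}}

/-- The 3-graph on `0, ..., 5` with edges 123 014 034 025 035 145 245 345. -/
def graphB : Finset (Finset (Fin 6)) :=
  {{1, 2, 3}, {0, 1, 4}, {0, 3, 4}, {0, 2, 5}, {0, 3, 5}, {1, 4, 5}, {2, 4, 5}, {3, 4, 5}}

/-- The 3-graph on `0, ..., 5` with edges 023 123 014 025 035 145 245 345. -/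
def graphC : Finset (Finset (Fin 6)) :=
  {{0, 2, 3}, {1, 2, 3}, {0, 1, 4}, {0, 2, 5}, {0, 3, 5}, {1, 4, 5}, {2, 4, 5}, {3, 4, 5}}

/-- The 3-graph on `0, ..., 5` with edges 023 124 134 015 235 245 345. -/
def graphD : Finset (Finset (Fin 6)) :=
  {{0, 2, 3}, {1, 2, 4}, {1, 3, 4}, {0, 1, 5}, {2, 3, 5}, {2, 4, 5}, {3, 4, 5}}

/-- The 3-graph on `0, ..., 5` with edges 013 024 134 015 235 245 345. -/
def graphE : Finset (Finset (Fin 6)) :=
  {{0, 1, 3}, {0, 2, 4}, {1, 3, 4}, {0, 1, 5}, {2, 3, 5}, {2, 4, 5}, {3, 4, 5}}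

/-- The number of sets of vertices which induce a copy of one of these 3-graphs in `G`. -/
noncomputable def copies {n : ℕ} (G : Finset (Finset (Fin n))) : ℕ :=
  ((univ : Finset (Finset (Fin n))).filter fun S =>
    Induces graphA G S ∨ Induces graphB G S ∨ Induces graphC G S ∨
    Induces graphD G S ∨ Induces graphE G S).card

/-- Some link graph of the 3-graph `G` contains the graph `F` as an induced subgraph: there are a
vertex `v` and an injection `f` from the vertices of `F` to the vertices other than `v` such that a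
pair `p` is an edge of `F` if and only if `v` and the image of `p` form an edge of `G`. -/
def LinkInduces {k n : ℕ} (F : Finset (Finset (Fin k))) (G : Finset (Finset (Fin n))) : Prop :=
  ∃ (v : Fin n) (f : Fin k → Fin n), Function.Injective f ∧ (∀ i, f i ≠ v) ∧
    ∀ p : Finset (Fin k), p.card = 2 → (insert v (p.image f) ∈ G ↔ p ∈ F)

/-- The path on five vertices. -/
def path5 : Finset (Finset (Fin 5)) := {{0, 1}, {1, 2}, {2, 3}, {3, 4}}

/-- The path on four vertices. -/
def path4 : Finset (Finset (Fin 4)) := {{0, 1}, {1, 2}, {2, 3}}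

theorem img {k n : ℕ} (f : Fin k → Fin n) (t : Finset (Fin k)) :
    @Finset.image _ _ (fun a b => Classical.propDecidable (a = b)) f t =
      @Finset.image _ _ (instDecidableEqFin n) f t := by
  ext v
  simp only [mem_image]

theorem not_of {n : ℕ} {G : Finset (Finset (Fin n))} {F : Finset (Finset (Fin 6))}
    {X : Finset (Finset (Fin 5))} (v : Fin 6) (g : Fin 5 → Fin 6) (hg : Function.Injective g)
    (hgv : ∀ i, g i ≠ v)
    (hX : ∀ p : Finset (Fin 5), p.card = 2 → (insert v (p.image g) ∈ F ↔ p ∈ X))
    (hc : ∀ p : Finset (Fin 5), p.card = 2 → (insert v (p.image g)).card = 3)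
    (h : ¬ LinkInduces X G) (S : Finset (Fin n)) : ¬ Induces F G S := by
  rintro ⟨f, hf, -, hfe⟩
  refine h ⟨f v, f ∘ g, hf.comp hg, fun i hi => hgv i (hf hi), ?_⟩
  intro p hp
  rw [← hX p hp, ← hfe _ (hc p hp), image_insert, image_image]

theorem ind_compl {n : ℕ} (F F' : Finset (Finset (Fin 6))) (G : Finset (Finset (Fin n)))
    (hF : ∀ t : Finset (Fin 6), t.card = 3 → (t ∈ F ↔ t ∉ F')) (S : Finset (Fin n))
    (h : Pool.Agent.H37R3.Cop.Induces F ((univ : Finset (Fin n)).powersetCard 3 \ G) S) :
    Induces F' G S := by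
  unfold Pool.Agent.H37R3.Cop.Induces at h
  simp only [img] at h
  obtain ⟨f, hf, hS, hfe⟩ := h
  refine ⟨f, hf, hS, fun t ht => ?_⟩
  have h1 := hfe t ht
  rw [hF t ht, mem_sdiff, mem_powersetCard, card_image_of_injective _ hf, ht] at h1
  simp only [subset_univ, true_and] at h1
  exact not_iff_not.mp h1

theorem copies_six {n : ℕ} (G : Finset (Finset (Fin n))) :
    (((univ : Finset (Fin n)).powersetCard 6).filter fun S =>
      Pool.Agent.H37R3.CopL.IndL Pool.Agent.TH512.FA.A.FS ((univ : Finset (Fin n)).powersetCard 3 \ G) S).card ≤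
      copies G := by
  unfold copies
  refine card_le_card fun S hS => ?_
  rw [mem_filter] at hS ⊢
  refine ⟨mem_univ _, ?_⟩
  obtain ⟨-, F, hF, h⟩ := hS
  have e : Pool.Agent.TH512.FA.A.FS = [(univ : Finset (Fin 6)).powersetCard 3 \ graphA, (univ : Finset (Fin 6)).powersetCard 3 \ graphB, (univ : Finset (Fin 6)).powersetCard 3 \ graphC, (univ : Finset (Fin 6)).powersetCard 3 \ graphD, (univ : Finset (Fin 6)).powersetCard 3 \ graphE] := by
    decide +kernel
  rw [e] at hF
  simp only [List.mem_cons, List.not_mem_nil, or_false] at hF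
  rcases hF with rfl | rfl | rfl | rfl | rfl
  · have h := ind_compl _ graphA G (by decide +kernel) S h
    exact Or.inl h
  · have h := ind_compl _ graphB G (by decide +kernel) S h
    exact Or.inr (Or.inl h)
  · have h := ind_compl _ graphC G (by decide +kernel) S h
    exact Or.inr (Or.inr (Or.inl h))
  · have h := ind_compl _ graphD G (by decide +kernel) S h
    exact Or.inr (Or.inr (Or.inr (Or.inl h)))
  · have h := ind_compl _ graphE G (by decide +kernel) S h
    exact Or.inr (Or.inr (Or.inr (Or.inr (h))))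

theorem choose_three (n : ℕ) : 6 * n.choose 3 + 3 * n ^ 2 = n ^ 3 + 2 * n := by
  have h2 : ∀ m : ℕ, 2 * m.choose 2 + m = m ^ 2 := by
    intro m
    induction m with
    | zero => rfl
    | succ m ih =>
      rw [Nat.choose_succ_succ' m 1, Nat.choose_one_right]
      nlinarith
  induction n with
  | zero => rfl
  | succ m ih =>
    rw [Nat.choose_succ_succ' m 2]
    have := h2 m
    nlinarith

theorem main (n : ℕ) (G : Finset (Finset (Fin n))) (h3 : ∀ e ∈ G, e.card = 3)
    (hK : CoversQuadruples G) :
    4 * n ^ 6 + 18 * n ^ 4 ≤ 54 * n ^ 3 * G.card + 27 * n ^ 5 + 1944 * copies G := by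
  rcases Nat.eq_zero_or_pos n with rfl | hn
  · simp
  · have hG : G ⊆ (univ : Finset (Fin n)).powersetCard 3 := fun e he =>
      mem_powersetCard.2 ⟨subset_univ _, h3 e he⟩
    have h := Pool.Agent.TH512.FA.A.main (V := Fin n)
      (H := (univ : Finset (Fin n)).powersetCard 3 \ G)
      (fun e he => (mem_powersetCard.1 (mem_sdiff.1 he).1).2)
      (by
        intro S hS
        obtain ⟨s, hs, hsG⟩ := hK S hS
        exact ⟨s, hs, h3 s hsG, fun h => (mem_sdiff.1 h).2 hsG⟩)
      (by rw [Fintype.card_fin]; exact hn)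
    rw [Fintype.card_fin] at h
    have h0 := h.trans (Nat.add_le_add_left (Nat.mul_le_mul_left _ (copies_six G)) _)
    have hc : ((univ : Finset (Fin n)).powersetCard 3 \ G).card + G.card = n.choose 3 := by
      rw [card_sdiff_add_card_eq_card hG, card_powersetCard, card_univ, Fintype.card_fin]
    have hc3 := choose_three n
    rw [← hc] at hc3
    have h5 : n ^ 3 * (6 * (((univ : Finset (Fin n)).powersetCard 3 \ G).card + G.card) +
        3 * n ^ 2) = n ^ 3 * (n ^ 3 + 2 * n) := by rw [hc3]
    nlinarith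

theorem of_free (n : ℕ) (G : Finset (Finset (Fin n))) (h3 : ∀ e ∈ G, e.card = 3)
    (hK : CoversQuadruples G) (hX : ¬ LinkInduces path5 G) :
    4 * n ^ 3 + 18 * n ≤ 54 * G.card + 27 * n ^ 2 := by
  rcases Nat.eq_zero_or_pos n with rfl | hn
  · simp
  · have h := main n G h3 hK
    have h0 : copies G = 0 := by
      unfold copies
      rw [card_eq_zero, filter_eq_empty_iff]
      rintro S - (hS | hS | hS | hS | hS)
      · exact not_of 1 ![2, 0, 3, 4, 5] (by decide) (by decide) (by decide +kernel)
          (by decide +kernel) hX S hS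
      · exact not_of 0 ![1, 4, 3, 5, 2] (by decide) (by decide) (by decide +kernel)
          (by decide +kernel) hX S hS
      · exact not_of 2 ![1, 3, 0, 5, 4] (by decide) (by decide) (by decide +kernel)
          (by decide +kernel) hX S hS
      · exact not_of 2 ![0, 3, 5, 4, 1] (by decide) (by decide) (by decide +kernel)
          (by decide +kernel) hX S hS
      · exact not_of 3 ![0, 1, 4, 5, 2] (by decide) (by decide) (by decide +kernel)
          (by decide +kernel) hX S hS
    rw [h0] at h
    have hn3 : 0 < n ^ 3 := by positivity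
    refine Nat.le_of_mul_le_mul_left ?_ hn3
    calc n ^ 3 * (4 * n ^ 3 + 18 * n) = 4 * n ^ 6 + 18 * n ^ 4 := by ring
      _ ≤ 54 * n ^ 3 * G.card + 27 * n ^ 5 + 1944 * 0 := h
      _ = n ^ 3 * (54 * G.card + 27 * n ^ 2) := by ring

theorem path_mono {n : ℕ} {G : Finset (Finset (Fin n))} (h : LinkInduces path5 G) :
    LinkInduces path4 G := by
  obtain ⟨v, f, hf, hv, h⟩ := h
  refine ⟨v, f ∘ Fin.castSucc, hf.comp (Fin.castSucc_injective 4), fun i => hv _, ?_⟩
  intro p hp
  have e : p.image (f ∘ Fin.castSucc) = (p.image Fin.castSucc).image f := by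
    rw [image_image]
  have hc : (p.image (Fin.castSucc : Fin 4 → Fin 5)).card = 2 := by
    rw [card_image_of_injective _ (Fin.castSucc_injective 4), hp]
  have key : ∀ p : Finset (Fin 4), p.card = 2 →
      ((p.image (Fin.castSucc : Fin 4 → Fin 5)) ∈ path5 ↔ p ∈ path4) := by decide +kernel
  rw [e, h _ hc]
  exact key p hp

open Pool.Agent.W38.TC.Lower in
theorem no_path : ∀ c a0 a1 a2 a3 : Fin 3, ¬ (E c a0 a1 = false ∧ E c a1 a2 = false ∧
    E c a2 a3 = false ∧ E c a0 a2 = true ∧ E c a0 a3 = true ∧ E c a1 a3 = true) := by decide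

open Pool.Agent.W38.TC.Lower in
/-- Turán's construction: its link graphs are cographs. -/
theorem sharp (n : ℕ) : ∃ G : Finset (Finset (Fin n)), (∀ e ∈ G, e.card = 3) ∧
    CoversQuadruples G ∧ ¬ LinkInduces path4 G ∧ 54 * G.card ≤ 4 * n ^ 3 + 108 * n ^ 2 := by
  refine ⟨(univ : Finset (Fin n)).powersetCard 3 \ Pool.Agent.W38.TC.Lower.H, ?_, ?_, ?_, ?_⟩
  · intro e he
    exact (mem_powersetCard.1 (mem_sdiff.1 he).1).2
  · intro S hS
    obtain ⟨s, hs, hs3, hsH⟩ := H_free S hS
    exact ⟨s, hs, mem_sdiff.2 ⟨mem_powersetCard.2 ⟨subset_univ _, hs3⟩, hsH⟩⟩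
  · rintro ⟨v, f, hf, hv, h⟩
    have key : ∀ i j : Fin 4, i ≠ j →
        (E (p v) (p (f i)) (p (f j)) = false ↔ ({i, j} : Finset (Fin 4)) ∈ path4) := by
      intro i j hij
      have hc : ({i, j} : Finset (Fin 4)).card = 2 := card_pair hij
      have h1 := h {i, j} hc
      have e : (insert v (({i, j} : Finset (Fin 4)).image f)) = ({v, f i, f j} : Finset (Fin n)) := by
        rw [image_insert, image_singleton]
      rw [e] at h1
      have hvi : v ≠ f i := fun h => hv i h.symm
      have hvj : v ≠ f j := fun h => hv j h.symm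
      have hfij : f i ≠ f j := fun h => hij (hf h)
      have hc3 : ({v, f i, f j} : Finset (Fin n)).card = 3 := by
        rw [card_insert_of_notMem, card_insert_of_notMem, card_singleton] <;> simp [hvi, hvj, hfij]
      rw [← h1, mem_sdiff, mem_powersetCard, mem_H hvi hvj hfij]
      simp [hc3]
    have k01 := (key 0 1 (by decide)).2 (by decide)
    have k12 := (key 1 2 (by decide)).2 (by decide)
    have k23 := (key 2 3 (by decide)).2 (by decide)
    have k02 : E (p v) (p (f 0)) (p (f 2)) = true := by
      rw [← Bool.not_eq_false]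
      exact fun h => absurd ((key 0 2 (by decide)).1 h) (by decide)
    have k03 : E (p v) (p (f 0)) (p (f 3)) = true := by
      rw [← Bool.not_eq_false]
      exact fun h => absurd ((key 0 3 (by decide)).1 h) (by decide)
    have k13 : E (p v) (p (f 1)) (p (f 3)) = true := by
      rw [← Bool.not_eq_false]
      exact fun h => absurd ((key 1 3 (by decide)).1 h) (by decide)
    exact no_path _ _ _ _ _ ⟨k01, k12, k23, k02, k03, k13⟩
  · have hH : (Pool.Agent.W38.TC.Lower.H : Finset (Finset (Fin n))) ⊆
        (univ : Finset (Fin n)).powersetCard 3 := fun e he =>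
      mem_powersetCard.2 ⟨subset_univ _, H_card he⟩
    have h1 := H_large (n := n)
    have hc : ((univ : Finset (Fin n)).powersetCard 3 \ Pool.Agent.W38.TC.Lower.H).card +
        (Pool.Agent.W38.TC.Lower.H : Finset (Finset (Fin n))).card = n.choose 3 := by
      rw [card_sdiff_add_card_eq_card hH, card_powersetCard, card_univ, Fintype.card_fin]
    have hc3 := choose_three n
    rw [← hc] at hc3
    have h2 : (6 * ((((univ : Finset (Fin n)).powersetCard 3 \ Pool.Agent.W38.TC.Lower.H).card : ℝ) +
        ((Pool.Agent.W38.TC.Lower.H : Finset (Finset (Fin n))).card : ℝ)) + 3 * (n : ℝ) ^ 2) =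
        (n : ℝ) ^ 3 + 2 * (n : ℝ) := by exact_mod_cast hc3
    have h3 : (0 : ℝ) ≤ (n : ℝ) := by positivity
    have h4 : (n : ℝ) ≤ (n : ℝ) ^ 2 := by
      rcases Nat.eq_zero_or_pos n with rfl | hn
      · simp
      · have : (1 : ℝ) ≤ (n : ℝ) := by exact_mod_cast hn
        nlinarith
    have h5 : (54 * (((univ : Finset (Fin n)).powersetCard 3 \ Pool.Agent.W38.TC.Lower.H).card : ℝ)) ≤
        4 * (n : ℝ) ^ 3 + 108 * (n : ℝ) ^ 2 := by
      nlinarith
    exact_mod_cast h5

/-- **Turán's `(3,4)`-conjecture for 3-graphs with `P_5`-free link graphs.** Let `G` be a 3-graph on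
`n` vertices in which every four vertices contain an edge. Then
`4 n⁶ + 18 n⁴ ≤ 54 n³ |G| + 27 n⁵ + 1944 N`, where `N` is the number of sets of vertices which induce
a copy of one of the five 3-graphs above. If no link graph of `G` contains an induced path on five
vertices (in particular, if no link graph contains an induced path on four vertices), then
`4 n³ + 18 n ≤ 54 |G| + 27 n²`. For every `n` there is such a 3-graph without induced paths on four
vertices in its link graphs (Turán's construction) and with `54 |G| ≤ 4 n³ + 108 n²`. -/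
theorem result :
    (∀ (n : ℕ) (G : Finset (Finset (Fin n))), (∀ e ∈ G, e.card = 3) → CoversQuadruples G →
      4 * n ^ 6 + 18 * n ^ 4 ≤ 54 * n ^ 3 * G.card + 27 * n ^ 5 + 1944 * copies G) ∧
    (∀ (n : ℕ) (G : Finset (Finset (Fin n))), (∀ e ∈ G, e.card = 3) → CoversQuadruples G →
      ¬ LinkInduces path5 G → 4 * n ^ 3 + 18 * n ≤ 54 * G.card + 27 * n ^ 2) ∧
    (∀ (n : ℕ) (G : Finset (Finset (Fin n))), (∀ e ∈ G, e.card = 3) → CoversQuadruples G →
      ¬ LinkInduces path4 G → 4 * n ^ 3 + 18 * n ≤ 54 * G.card + 27 * n ^ 2) ∧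
    (∀ n : ℕ, ∃ G : Finset (Finset (Fin n)), (∀ e ∈ G, e.card = 3) ∧ CoversQuadruples G ∧
      ¬ LinkInduces path4 G ∧ 54 * G.card ≤ 4 * n ^ 3 + 108 * n ^ 2) :=
  ⟨main, of_free, fun n G h3 hK hX => of_free n G h3 hK fun h => hX (path_mono h), sharp⟩

end Pool.Agent.Results.MP_466853_co.PathFreeLinks
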